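import Pool.Agent.P.MP_6b6f6e_co.Ord.Base

/-!
Averaging over translates: repeated squaring of an uncovered set, and a greedy choice of
generators whose sums of `s` distinct terms behave like independent random elements.
-/

namespace Pool.Agent.P.MP_6b6f6e_co.Ord

open Finset

variable {G : Type} [AddCommGroup G] [Fintype G]

open Classical in
theorem sum_shift (U V : G → Prop) :
    ∑ h : G, ((univ.filter fun g => U g ∧ V (g - h)).card : ℝ)
      = (univ.filter U).card * (univ.filter V).card := by
  simp only [card_filter, Nat.cast_sum]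
  rw [sum_comm, sum_mul_sum]
  refine sum_congr rfl fun g _ => ?_
  refine Fintype.sum_equiv (Equiv.subLeft g) _ _ fun h => ?_
  by_cases h1 : U g <;> by_cases h2 : V (g - h) <;> simp [h1, h2]

theorem exists_prod_le {Ω κ : Type} [Fintype Ω] [Nonempty Ω] [Fintype κ] (f : κ → Ω → ℝ)
    (hf : ∀ k h, 0 ≤ f k h) (b : κ → ℝ) (hb : ∀ k, ∑ h, f k h ≤ Fintype.card Ω * b k) :
    ∃ h, ∏ k, f k h ≤ ∏ k, b k := by
  have hn : (0 : ℝ) < Fintype.card Ω := by exact_mod_cast Fintype.card_pos
  have hb0 : ∀ k, 0 ≤ b k := fun k =>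
    nonneg_of_mul_nonneg_right ((sum_nonneg fun h _ => hf k h).trans (hb k)) hn
  by_cases hz : ∃ k, b k = 0
  · obtain ⟨k, hk⟩ := hz
    obtain ⟨h⟩ := ‹Nonempty Ω›
    have h1 : f k h ≤ ∑ h, f k h := single_le_sum (fun h _ => hf k h) (mem_univ h)
    have h2 := hb k
    rw [hk, mul_zero] at h2
    refine ⟨h, ?_⟩
    rw [prod_eq_zero (mem_univ k) (le_antisymm (h1.trans h2) (hf k h))]
    exact prod_nonneg fun k _ => hb0 k
  · push Not at hz
    have hp : ∀ k, 0 < b k := fun k => (hb0 k).lt_of_ne' (hz k)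
    have h1 : ∑ h : Ω, ∑ k, (f k h / b k - 1) ≤ ∑ _h : Ω, (0 : ℝ) := by
      rw [sum_comm, sum_const_zero]
      refine sum_nonpos fun k _ => ?_
      rw [sum_sub_distrib, ← sum_div, sum_const, card_univ, nsmul_eq_mul, mul_one, sub_nonpos,
        div_le_iff₀ (hp k)]
      exact hb k
    obtain ⟨h, -, hh⟩ := exists_le_of_sum_le univ_nonempty h1
    refine ⟨h, ?_⟩
    calc ∏ k, f k h ≤ ∏ k, b k * Real.exp (f k h / b k - 1) := by
          refine prod_le_prod (fun k _ => hf k h) fun k _ => ?_
          have := Real.add_one_le_exp (f k h / b k - 1)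
          rw [← div_le_iff₀' (hp k)]
          linarith
      _ = (∏ k, b k) * Real.exp (∑ k, (f k h / b k - 1)) := by
          rw [prod_mul_distrib, Real.exp_sum]
      _ ≤ (∏ k, b k) * 1 :=
          mul_le_mul_of_nonneg_left (Real.exp_le_one_iff.2 hh) (prod_nonneg fun k _ => hb0 k)
      _ = _ := mul_one _

open Classical in
/-- Density of a set. -/
noncomputable def dens (U : G → Prop) : ℝ := ((univ.filter U).card : ℝ) / Fintype.card G

theorem dens_nonneg (U : G → Prop) : 0 ≤ dens U := by unfold dens; positivity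

theorem dens_mono {U V : G → Prop} (h : ∀ g, U g → V g) : dens U ≤ dens V := by
  classical
  unfold dens
  gcongr with g
  exact h g

theorem sum_dens (U V : G → Prop) :
    ∑ h : G, dens (fun g => U g ∧ V (g - h)) = Fintype.card G * (dens U * dens V) := by
  have hn : (0 : ℝ) < Fintype.card G := by exact_mod_cast Fintype.card_pos
  unfold dens
  rw [← sum_div]
  have := sum_shift U V
  field_simp
  convert this

theorem dens_empty {U : G → Prop} (h : dens U * Fintype.card G < 1) (g : G) : ¬U g := by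
  classical
  intro hg
  have hn : (0 : ℝ) < Fintype.card G := by exact_mod_cast Fintype.card_pos
  unfold dens at h
  rw [div_mul_cancel₀ _ hn.ne'] at h
  have h1 : (univ.filter U).card < 1 := by exact_mod_cast h
  have h2 : 0 < (univ.filter U).card := card_pos.2 ⟨g, mem_filter.2 ⟨mem_univ _, hg⟩⟩
  omega

omit [Fintype G] in
theorem sum_succ_set {t : ℕ} (h : G) (a : Fin t → G) (I : Finset (Fin t)) :
    ∑ i ∈ I.map (Fin.succEmb t), (Fin.cons h a : Fin (t + 1) → G) i = ∑ i ∈ I, a i := by
  rw [sum_map]; rfl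

theorem zero_notMem_map {t : ℕ} (I : Finset (Fin t)) : (0 : Fin (t + 1)) ∉ I.map (Fin.succEmb t) := by
  simp

theorem rogers_dens (U : G → Prop) (t : ℕ) :
    ∃ h : Fin t → G, dens (fun g => ∀ I : Finset (Fin t), U (g - ∑ i ∈ I, h i))
      ≤ dens U ^ 2 ^ t := by
  induction t with
  | zero => exact ⟨0, by simp⟩
  | succ t ih =>
    obtain ⟨a, ha⟩ := ih
    set W := fun g => ∀ I : Finset (Fin t), U (g - ∑ i ∈ I, a i) with hW
    obtain ⟨h, hh⟩ := exists_prod_le (κ := Unit) (fun _ h => dens fun g => W g ∧ W (g - h))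
      (fun _ _ => dens_nonneg _) (fun _ => dens W * dens W) fun _ => (sum_dens W W).le
    simp only [Fintype.prod_unique] at hh
    have h2 : dens W * dens W ≤ dens U ^ 2 ^ (t + 1) := by
      rw [pow_succ, pow_mul, sq]
      exact mul_self_le_mul_self (dens_nonneg _) ha
    refine ⟨Fin.cons h a, le_trans (dens_mono fun g hg => ⟨fun I => ?_, fun I => ?_⟩)
      (hh.trans h2)⟩
    · have := hg (I.map (Fin.succEmb t))
      rwa [sum_succ_set] at this
    · have := hg (cons 0 _ (zero_notMem_map I))
      rw [sum_cons, sum_succ_set, Fin.cons_zero] at this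
      rwa [sub_sub]

/-- Repeated squaring empties a sparse uncovered set. -/
theorem rogers (U : G → Prop) (t : ℕ) (hU : dens U ^ 2 ^ t * Fintype.card G < 1) :
    ∃ h : Fin t → G, ∀ g, ∃ I : Finset (Fin t), ¬U (g - ∑ i ∈ I, h i) := by
  obtain ⟨h, hh⟩ := rogers_dens U t
  refine ⟨h, fun g => ?_⟩
  have := dens_empty (lt_of_le_of_lt (mul_le_mul_of_nonneg_right hh (Nat.cast_nonneg _)) hU) g
  push Not at this
  exact this

/-- Not a sum of `j - 1` distinct generators. -/
def Unc {c : ℕ} (a : Fin c → G) (j : ℕ) (g : G) : Prop :=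
  ∀ I : Finset (Fin c), I.card + 1 = j → ∑ i ∈ I, a i ≠ g

/-- Shifted binomial coefficient. -/
def bin (c : ℕ) : ℕ → ℕ
  | 0 => 0
  | j + 1 => c.choose j

theorem bin_succ (c j : ℕ) : bin (c + 1) j = bin c j + bin c (j - 1) := by
  rcases j with _ | _ | j
  · rfl
  · simp [bin]
  · simp [bin, Nat.choose_succ_succ', add_comm]

theorem pascal_dens (c : ℕ) : ∀ (κ : Type) [Fintype κ] (lev : κ → ℕ), ∃ a : Fin c → G,
    ∏ k, dens (Unc a (lev k)) ≤ ∏ k, (1 - 1 / (Fintype.card G : ℝ)) ^ bin c (lev k) := by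
  have hn : (0 : ℝ) < Fintype.card G := by exact_mod_cast Fintype.card_pos
  induction c with
  | zero =>
    classical
    intro κ _ lev
    refine ⟨0, prod_le_prod (fun _ _ => dens_nonneg _) fun k _ => ?_⟩
    have h1 : ∀ U : G → Prop, dens U ≤ 1 := fun U => by
      unfold dens
      rw [div_le_one hn]
      exact_mod_cast card_le_univ _
    rcases lev k with _ | _ | j
    · simpa [bin] using h1 _
    · refine (dens_mono (V := fun g => g ≠ 0) fun g hg => (hg ∅ rfl).symm).trans (le_of_eq ?_)
      unfold dens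
      have : (univ.filter fun g : G => g ≠ 0).card + 1 = Fintype.card G := by
        rw [filter_ne', card_erase_add_one (mem_univ _), card_univ]
      have h2 : ((univ.filter fun g : G => g ≠ 0).card : ℝ) = Fintype.card G - 1 := by
        rw [← this]; push_cast; ring
      simp only [bin, Nat.choose_self, pow_one]
      field_simp
      convert h2
    · simpa [bin] using h1 _
  | succ c ih =>
    intro κ _ lev
    obtain ⟨a, ha⟩ := ih (κ ⊕ κ) (Sum.elim lev fun k => lev k - 1)
    obtain ⟨h, hh⟩ := exists_prod_le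
      (fun k h => dens fun g => Unc a (lev k) g ∧ Unc a (lev k - 1) (g - h))
      (fun _ _ => dens_nonneg _) (fun k => dens (Unc a (lev k)) * dens (Unc a (lev k - 1)))
      fun _ => (sum_dens _ _).le
    simp only [Fintype.prod_sum_type, Sum.elim_inl, Sum.elim_inr] at ha
    simp only [bin_succ, pow_add, prod_mul_distrib] at hh ⊢
    refine ⟨Fin.cons h a, le_trans (prod_le_prod (fun _ _ => dens_nonneg _) fun k _ =>
      dens_mono fun g hg => ⟨fun I hI => ?_, fun I hI e => ?_⟩) (hh.trans ha)⟩
    · have := hg (I.map (Fin.succEmb c)) (by rwa [card_map])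
      rwa [sum_succ_set] at this
    · refine hg (cons 0 _ (zero_notMem_map I)) (by rw [card_cons, card_map]; omega) ?_
      rw [sum_cons, sum_succ_set, Fin.cons_zero, e, add_sub_cancel]

/-- Sums of exactly `s` distinct generators cover the group as soon as independent random
elements would. -/
theorem pascal (c s : ℕ)
    (h : (1 - 1 / (Fintype.card G : ℝ)) ^ c.choose s * Fintype.card G < 1) :
    ∃ a : Fin c → G, ∀ g, ∃ I : Finset (Fin c), I.card = s ∧ ∑ i ∈ I, a i = g := by
  obtain ⟨a, ha⟩ := pascal_dens (G := G) c Unit fun _ => s + 1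
  simp only [Fintype.prod_unique, bin] at ha
  refine ⟨a, fun g => ?_⟩
  have := dens_empty (lt_of_le_of_lt (mul_le_mul_of_nonneg_right ha (Nat.cast_nonneg _)) h) g
  unfold Unc at this
  push Not at this
  obtain ⟨I, h1, h2⟩ := this
  exact ⟨I, by omega, h2⟩

end Pool.Agent.P.MP_6b6f6e_co.Ord
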