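import Mathlib

/-!
Basic notions: covers of finite abelian groups by short sums of generators, counts of lattice
points in simplices, and comparison of binomial coefficients.
-/

namespace Pool.Agent.P.MP_6b6f6e_co.Ord

open Finset

/-- A finite abelian group of order at least `n` with at most `m` generators, every element being
a sum of at most `s` of them. -/
def Cov (m s n : ℕ) : Prop :=
  ∃ (G : Type) (_ : AddCommGroup G) (_ : Finite G) (ι : Type) (_ : Fintype ι) (a : ι → G),
    Fintype.card ι ≤ m ∧ n ≤ Nat.card G ∧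
      ∀ g : G, ∃ y : ι → ℕ, ∑ i, y i ≤ s ∧ ∑ i, y i • a i = g

theorem Cov.mono {m s n m' s' n' : ℕ} (h : Cov m s n) (hm : m ≤ m') (hs : s ≤ s') (hn : n' ≤ n) :
    Cov m' s' n' := by
  obtain ⟨G, _, _, ι, _, a, h1, h2, h3⟩ := h
  refine ⟨G, inferInstance, inferInstance, ι, inferInstance, a, h1.trans hm, hn.trans h2,
    fun g => ?_⟩
  obtain ⟨y, e1, e2⟩ := h3 g
  exact ⟨y, e1.trans hs, e2⟩

theorem cov_one (m s : ℕ) : Cov m s 1 :=
  ⟨PUnit, inferInstance, inferInstance, Empty, inferInstance, fun _ => 0, by simp, by simp,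
    fun _ => ⟨fun _ => 0, by simp, rfl⟩⟩

/-- From an indexed family of generators to a finite set. -/
theorem Cov.toSet {m s n : ℕ} (h : Cov m s n) :
    ∃ (G : Type) (_ : AddCommGroup G) (_ : Finite G) (A : Finset G), n ≤ Nat.card G ∧ A.card ≤ m ∧
      ∀ g : G, ∃ l : G → ℕ, ∑ a ∈ A, l a ≤ s ∧ ∑ a ∈ A, l a • a = g := by
  classical
  obtain ⟨G, _, _, ι, _, a, h1, h2, h3⟩ := h
  refine ⟨G, inferInstance, inferInstance, univ.image a, h2,
    card_image_le.trans (by simpa using h1), fun g => ?_⟩
  obtain ⟨y, e1, e2⟩ := h3 g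
  have hm : ∀ i ∈ (univ : Finset ι), a i ∈ univ.image a := fun i hi => mem_image_of_mem a hi
  refine ⟨fun x => ∑ i ∈ univ with a i = x, y i, ?_, ?_⟩
  · rwa [sum_fiberwise_of_maps_to hm]
  · rw [← e2, ← sum_fiberwise_of_maps_to hm]
    refine sum_congr rfl fun x _ => ?_
    rw [sum_smul]
    refine sum_congr rfl fun i hi => ?_
    rw [(mem_filter.1 hi).2]

/-- From a finite set to `m + 1` generators, with sums of exactly `s` terms. -/
theorem homog {G : Type} [AddCommGroup G] {m s : ℕ} (A : Finset G) (hA : A.card ≤ m)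
    (h : ∀ g : G, ∃ l : G → ℕ, ∑ a ∈ A, l a ≤ s ∧ ∑ a ∈ A, l a • a = g) :
    ∃ a : Fin (m + 1) → G, ∀ g : G, ∃ y : Fin (m + 1) → ℕ, ∑ i, y i = s ∧ ∑ i, y i • a i = g := by
  classical
  obtain ⟨e⟩ : Nonempty (A ↪ Fin m) := Function.Embedding.nonempty_of_card_le (by simpa using hA)
  refine ⟨Fin.cons 0 (Function.extend e (fun x => (x : G)) 0), fun g => ?_⟩
  obtain ⟨l, e1, e2⟩ := h g
  have k1 : ∑ j, Function.extend e (fun x : A => l x) 0 j = ∑ a ∈ A, l a := by
    rw [← sum_coe_sort A]
    refine (Fintype.sum_of_injective e e.injective _ _ (fun j hj => ?_) fun x => ?_).symm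
    · exact Function.extend_apply' _ _ _ hj
    · rw [e.injective.extend_apply]
  have k2 : ∑ j, Function.extend e (fun x : A => l x) 0 j • Function.extend e (fun x => (x : G)) 0 j
      = ∑ a ∈ A, l a • a := by
    rw [← sum_coe_sort A]
    refine (Fintype.sum_of_injective e e.injective _ _ (fun j hj => ?_) fun x => ?_).symm
    · rw [Function.extend_apply' _ _ _ hj]; simp
    · rw [e.injective.extend_apply, e.injective.extend_apply]
  refine ⟨Fin.cons (s - ∑ a ∈ A, l a) (Function.extend e (fun x : A => l x) 0), ?_, ?_⟩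
  · rw [Fin.sum_univ_succ]; simp only [Fin.cons_zero, Fin.cons_succ]; omega
  · rw [Fin.sum_univ_succ]; simp only [Fin.cons_zero, Fin.cons_succ, smul_zero, zero_add]
    rw [k2, e2]

theorem sum_le_of_injOn {α β R : Type*} [AddCommMonoid R] [PartialOrder R] [IsOrderedAddMonoid R]
    {s : Finset α} {t : Finset β} {f : α → R} {g : β → R} (e : α → β) (he : Set.InjOn e s)
    (hm : ∀ x ∈ s, e x ∈ t) (hf : ∀ x ∈ s, f x ≤ g (e x)) (hg : ∀ y ∈ t, 0 ≤ g y) :
    ∑ x ∈ s, f x ≤ ∑ y ∈ t, g y := by
  classical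
  calc ∑ x ∈ s, f x ≤ ∑ x ∈ s, g (e x) := sum_le_sum hf
    _ = ∑ y ∈ s.image e, g y := (sum_image he).symm
    _ ≤ _ := sum_le_sum_of_subset_of_nonneg (image_subset_iff.2 hm) fun y hy _ => hg y hy

theorem card_level (m t : ℕ) :
    (piAntidiag (univ : Finset (Fin (m + 1))) t).card = (m + t).choose m := by
  have h := card_finsuppAntidiag_nat_eq_choose (s := (univ : Finset (Fin (m + 1)))) t
  rw [finsuppAntidiag, card_map, card_attach, card_univ, Fintype.card_fin] at h
  rw [h, show m + 1 + t - 1 = m + t by omega, Nat.choose_symm_add]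

/-- Lattice points of the simplex. -/
def simplex (m s : ℕ) : Finset (Fin m → ℕ) :=
  (Fintype.piFinset fun _ => range (s + 1)).filter fun y => ∑ i, y i ≤ s

theorem mem_simplex {m s : ℕ} {y : Fin m → ℕ} : y ∈ simplex m s ↔ ∑ i, y i ≤ s := by
  rw [simplex, mem_filter, Fintype.mem_piFinset]
  refine ⟨fun h => h.2, fun h => ⟨fun i => mem_range.2 ?_, h⟩⟩
  have := single_le_sum (f := y) (fun j _ => Nat.zero_le _) (mem_univ i)
  omega

theorem card_simplex (m s : ℕ) : (simplex m s).card = (m + s).choose m := by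
  rw [← card_level]
  refine card_nbij' (fun y => Fin.cons (s - ∑ i, y i) y) (fun z => Fin.tail z) ?_ ?_ ?_ ?_
  · intro y hy
    have := mem_simplex.1 hy
    simp only [mem_coe, mem_piAntidiag, mem_univ, implies_true, and_true, Fin.sum_univ_succ,
      Fin.cons_zero, Fin.cons_succ]
    omega
  · intro z hz
    simp only [mem_coe, mem_piAntidiag, mem_univ, implies_true, and_true, Fin.sum_univ_succ] at hz
    refine mem_simplex.2 ?_
    simp only [Fin.tail]
    omega
  · intro y _; simp
  · intro z hz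
    simp only [mem_coe, mem_piAntidiag, mem_univ, implies_true, and_true, Fin.sum_univ_succ] at hz
    have : s - ∑ i, Fin.tail z i = z 0 := by simp only [Fin.tail]; omega
    simp only [this, Fin.cons_self_tail]

theorem choose_step (m s : ℕ) :
    (m + 1 + s).choose (m + 1) * (m + 1) = (m + s).choose m * (m + 1 + s) := by
  have := Nat.add_one_mul_choose_eq (m + s) m
  rw [show m + 1 + s = m + s + 1 by omega]
  linarith

/-- Raising the level multiplies the count by at most `(1 + u / s) ^ m`. -/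
theorem choose_level (m s u : ℕ) :
    s ^ m * (m + (s + u)).choose m ≤ (s + u) ^ m * (m + s).choose m := by
  induction m with
  | zero => simp
  | succ m ih =>
    refine Nat.le_of_mul_le_mul_right ?_ (Nat.succ_pos m)
    have h1 := choose_step m (s + u)
    have h2 := choose_step m s
    have h3 : s * (m + 1 + (s + u)) ≤ (s + u) * (m + 1 + s) := by nlinarith
    calc s ^ (m + 1) * (m + 1 + (s + u)).choose (m + 1) * (m + 1)
        = (s ^ m * (m + (s + u)).choose m) * (s * (m + 1 + (s + u))) := by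
          rw [mul_assoc, h1]; ring
      _ ≤ ((s + u) ^ m * (m + s).choose m) * ((s + u) * (m + 1 + s)) := Nat.mul_le_mul ih h3
      _ = _ := by rw [mul_assoc ((s + u) ^ (m + 1)), h2]; ring

end Pool.Agent.P.MP_6b6f6e_co.Ord
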