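import Pool.Agent.P.MP_6b6f6e_co.Ord.Base

/-!
A truncated inclusion-exclusion inequality over a hereditary family of independent sets.
-/

namespace Pool.Agent.P.MP_6b6f6e_co.Ord

open Finset

variable {α : Type} [DecidableEq α]

open Classical in
/-- Signed weight of small independent sets. -/
noncomputable def sg (Ind : Finset α → Prop) (k : ℕ) (J : Finset α) : ℝ :=
  if Ind J ∧ J.card ≤ k then (-1) ^ J.card else 0

open Classical in
/-- Indicator of small dependent sets. -/
noncomputable def dp (Ind : Finset α → Prop) (k : ℕ) (T : Finset α) : ℝ :=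
  if ¬Ind T ∧ T.card ≤ k then 1 else 0

open Classical in
/-- Number of ways of making an independent set dependent. -/
noncomputable def bd (S : Finset α) (Ind : Finset α → Prop) (k : ℕ) (J : Finset α) : ℝ :=
  if Ind J then ∑ y ∈ S \ J, dp Ind k (insert y J) else 0

omit [DecidableEq α] in
theorem dp_nonneg (Ind : Finset α → Prop) (k : ℕ) (T : Finset α) : 0 ≤ dp Ind k T := by
  unfold dp; split_ifs <;> norm_num

theorem bd_nonneg (S : Finset α) (Ind : Finset α → Prop) (k : ℕ) (J : Finset α) :
    0 ≤ bd S Ind k J := by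
  unfold bd; split_ifs
  · exact sum_nonneg fun _ _ => dp_nonneg _ _ _
  · rfl

theorem pointwise (S X : Finset α) (hX : X ⊆ S) (Ind : Finset α → Prop)
    (her : ∀ J y, Ind (insert y J) → Ind J) (h0 : Ind ∅) {k : ℕ} (hk : Even k) :
    (if X = ∅ then 1 else 0 : ℝ) ≤ ∑ J ∈ X.powerset, (sg Ind k J + bd S Ind k J) := by
  split_ifs with h
  · subst h
    have := bd_nonneg S Ind k ∅
    simp only [powerset_empty, sum_singleton, sg, h0, card_empty, zero_le, and_self, if_true,
      pow_zero]
    linarith
  obtain ⟨x, hx⟩ := nonempty_iff_ne_empty.2 h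
  rw [← insert_erase hx, sum_powerset_insert (notMem_erase x X), ← sum_add_distrib]
  refine sum_nonneg fun J hJ => ?_
  have hxJ : x ∉ J := fun c => notMem_erase x X (mem_powerset.1 hJ c)
  have b1 := bd_nonneg S Ind k (insert x J)
  have b0 := bd_nonneg S Ind k J
  have hc := card_insert_of_notMem hxJ
  by_cases i1 : Ind J
  · have b2 : dp Ind k (insert x J) ≤ bd S Ind k J := by
      rw [bd, if_pos i1]
      exact single_le_sum (f := fun y => dp Ind k (insert y J)) (fun _ _ => dp_nonneg _ _ _)
        (mem_sdiff.2 ⟨hX hx, hxJ⟩)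
    rcases lt_trichotomy J.card k with c | c | c
    · by_cases i2 : Ind (insert x J)
      · have e : sg Ind k J + sg Ind k (insert x J) = 0 := by
          rw [sg, sg, if_pos ⟨i1, c.le⟩, if_pos ⟨i2, by omega⟩, hc, pow_succ]; ring
        linarith
      · rw [dp, if_pos ⟨i2, by omega⟩] at b2
        rw [sg, sg, if_pos ⟨i1, c.le⟩, if_neg fun c => i2 c.1]
        rcases neg_one_pow_eq_or ℝ J.card with e | e <;> rw [e] <;> linarith
    · rw [sg, sg, if_pos ⟨i1, c.le⟩, if_neg fun c => by omega, c, hk.neg_one_pow]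
      linarith
    · rw [sg, sg, if_neg fun c => by omega, if_neg fun c => by omega]
      linarith
  · rw [sg, sg, if_neg fun c => i1 c.1, if_neg fun c => i1 (her _ _ c.1)]
    linarith

omit [DecidableEq α] in
theorem sum_pow_card (S : Finset α) (z : ℝ) : ∑ J ∈ S.powerset, z ^ J.card = (1 + z) ^ S.card := by
  rw [← prod_const, prod_one_add]
  simp only [prod_const]

omit [DecidableEq α] in
theorem sum_sg (S : Finset α) (Ind : Finset α → Prop) (k : ℕ) {x : ℝ} (hx : 0 ≤ x) (hx1 : x ≤ 1) :
    ∑ J ∈ S.powerset, sg Ind k J * x ^ J.card ≤ Real.exp (-(S.card * x))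
      + Real.exp (4 * (S.card * x)) / 4 ^ k + ∑ T ∈ S.powerset, dp Ind k T * x ^ T.card := by
  have h1 : ∑ J ∈ S.powerset, sg Ind k J * x ^ J.card ≤ ∑ J ∈ S.powerset,
      ((-x) ^ J.card + (4 * x) ^ J.card / 4 ^ k + dp Ind k J * x ^ J.card) := by
    refine sum_le_sum fun J _ => ?_
    have a0 : 0 ≤ x ^ J.card := by positivity
    have a1 : 0 ≤ (4 * x) ^ J.card / 4 ^ k := by positivity
    have a2 : 0 ≤ (-x) ^ J.card + x ^ J.card := by
      rw [neg_pow]
      rcases neg_one_pow_eq_or ℝ J.card with e | e <;> rw [e] <;> linarith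
    by_cases c : J.card ≤ k
    · by_cases i : Ind J
      · rw [sg, dp, if_pos ⟨i, c⟩, if_neg fun c => c.1 i, neg_pow x]; linarith
      · rw [sg, dp, if_neg fun c => i c.1, if_pos ⟨i, c⟩]; linarith
    · rw [sg, dp, if_neg fun d => c d.2, if_neg fun d => c d.2]
      have : x ^ J.card ≤ (4 * x) ^ J.card / 4 ^ k := by
        rw [le_div_iff₀ (by positivity), mul_pow, mul_comm]
        exact mul_le_mul_of_nonneg_right (pow_le_pow_right₀ (by norm_num) (by omega)) a0
      linarith
  rw [sum_add_distrib, sum_add_distrib, ← sum_div, sum_pow_card, sum_pow_card] at h1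
  have h2 : (1 + -x) ^ S.card ≤ Real.exp (-(S.card * x)) := by
    rw [← mul_neg, Real.exp_nat_mul]
    exact pow_le_pow_left₀ (by linarith) (by linarith [Real.add_one_le_exp (-x)]) _
  have h3 : (1 + 4 * x) ^ S.card ≤ Real.exp (4 * (S.card * x)) := by
    rw [mul_left_comm, Real.exp_nat_mul]
    exact pow_le_pow_left₀ (by linarith) (by linarith [Real.add_one_le_exp (4 * x)]) _
  have h4 : (1 + 4 * x) ^ S.card / 4 ^ k ≤ Real.exp (4 * (S.card * x)) / 4 ^ k := by gcongr
  linarith

theorem sum_bd (S : Finset α) (Ind : Finset α → Prop) (k : ℕ) {x : ℝ} (hx : 0 < x) :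
    ∑ J ∈ S.powerset, bd S Ind k J * x ^ J.card
      ≤ k / x * ∑ T ∈ S.powerset, dp Ind k T * x ^ T.card := by
  have hn : ∀ T, 0 ≤ dp Ind k T * x ^ T.card / x := fun T => by
    have := dp_nonneg Ind k T
    positivity
  calc ∑ J ∈ S.powerset, bd S Ind k J * x ^ J.card
      ≤ ∑ J ∈ S.powerset, ∑ y ∈ S with y ∉ J,
          dp Ind k (insert y J) * x ^ (insert y J).card / x := by
        refine sum_le_sum fun J _ => ?_
        rw [bd]
        split_ifs
        · rw [sum_mul, sdiff_eq_filter]
          refine le_of_eq (sum_congr rfl fun y hy => ?_)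
          rw [card_insert_of_notMem (mem_filter.1 hy).2, pow_succ]
          field_simp
        · rw [zero_mul]; exact sum_nonneg fun _ _ => hn _
    _ = ∑ y ∈ S, ∑ J ∈ S.powerset with y ∉ J,
          dp Ind k (insert y J) * x ^ (insert y J).card / x := by
        simp only [sum_filter]; exact sum_comm
    _ ≤ ∑ y ∈ S, ∑ T ∈ S.powerset with y ∈ T, dp Ind k T * x ^ T.card / x := by
        refine sum_le_sum fun y hy => sum_le_of_injOn (insert y) (fun J hJ J' hJ' e => ?_)
          (fun J hJ => ?_) (fun _ _ => le_rfl) fun T _ => hn T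
        · rw [← erase_insert (mem_filter.1 hJ).2, e, erase_insert (mem_filter.1 hJ').2]
        · exact mem_filter.2 ⟨mem_powerset.2 (insert_subset hy (mem_powerset.1 (mem_filter.1 hJ).1)),
            mem_insert_self _ _⟩
    _ = ∑ T ∈ S.powerset, ∑ y ∈ S with y ∈ T, dp Ind k T * x ^ T.card / x := by
        simp only [sum_filter]; exact sum_comm
    _ ≤ _ := by
        rw [mul_sum]
        refine sum_le_sum fun T hT => ?_
        rw [sum_const, filter_mem_eq_inter, inter_eq_right.2 (mem_powerset.1 hT), nsmul_eq_mul]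
        by_cases c : T.card ≤ k
        · calc _ ≤ k * (dp Ind k T * x ^ T.card / x) :=
                mul_le_mul_of_nonneg_right (by exact_mod_cast c) (hn T)
            _ = _ := by ring
        · rw [dp, if_neg fun d => c d.2]; simp

open Classical in
/-- If independent sets of events are jointly independent with probability `x` each, then the
probability that none occurs is close to `exp (-N x)`. -/
theorem bonf {Ω : Type} [Fintype Ω] (S : Finset α) (Ind : Finset α → Prop)
    (her : ∀ J y, Ind (insert y J) → Ind J) (h0 : Ind ∅) {k : ℕ} (hk : Even k)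
    (X : Ω → α → Prop) {x : ℝ} (hx : 0 < x) (hx1 : x ≤ 1)
    (hP : ∀ J ⊆ S, Ind J →
      ((univ.filter fun w => ∀ y ∈ J, X w y).card : ℝ) = Fintype.card Ω * x ^ J.card) :
    ((univ.filter fun w => ∀ y ∈ S, ¬X w y).card : ℝ) ≤ Fintype.card Ω *
      (Real.exp (-(S.card * x)) + Real.exp (4 * (S.card * x)) / 4 ^ k
        + (1 + k / x) * ∑ T ∈ S.powerset, dp Ind k T * x ^ T.card) := by
  calc ((univ.filter fun w => ∀ y ∈ S, ¬X w y).card : ℝ)
      = ∑ w, if S.filter (X w) = ∅ then 1 else 0 := by
        simp only [filter_eq_empty_iff, sum_boole]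
    _ ≤ ∑ w, ∑ J ∈ (S.filter (X w)).powerset, (sg Ind k J + bd S Ind k J) :=
        sum_le_sum fun w _ => pointwise S _ (filter_subset _ _) Ind her h0 hk
    _ = ∑ w, ∑ J ∈ S.powerset, if ∀ y ∈ J, X w y then (sg Ind k J + bd S Ind k J) else 0 := by
        refine sum_congr rfl fun w _ => ?_
        rw [← sum_filter]
        refine sum_congr ?_ fun _ _ => rfl
        ext J
        simp only [mem_powerset, mem_filter, subset_iff]
        exact ⟨fun h => ⟨fun y hy => (h hy).1, fun y hy => (h hy).2⟩,
          fun h y hy => ⟨h.1 hy, h.2 y hy⟩⟩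
    _ = ∑ J ∈ S.powerset, Fintype.card Ω *
          (sg Ind k J * x ^ J.card + bd S Ind k J * x ^ J.card) := by
        rw [sum_comm]
        refine sum_congr rfl fun J hJ => ?_
        rw [← sum_filter, sum_const, nsmul_eq_mul]
        by_cases i : Ind J
        · rw [hP J (mem_powerset.1 hJ) i]; ring
        · rw [sg, bd, if_neg fun c => i c.1, if_neg i]; simp
    _ ≤ _ := by
        rw [← mul_sum, sum_add_distrib]
        refine mul_le_mul_of_nonneg_left ?_ (Nat.cast_nonneg _)
        have := sum_sg S Ind k hx.le hx1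
        have := sum_bd S Ind k hx
        linarith

end Pool.Agent.P.MP_6b6f6e_co.Ord
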