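import Pool.Agent.P.MP_6b6f6e_co.Ord.Base

/-!
Constructions of covers from covers: cyclic blocks, scaling of lattices, and blowing up
generators to lines.
-/

namespace Pool.Agent.P.MP_6b6f6e_co.Ord

open Finset

theorem Cov.toFin {m s n : ℕ} (h : Cov m s n) :
    ∃ (G : Type) (_ : AddCommGroup G) (_ : Finite G) (a : Fin m → G), n ≤ Nat.card G ∧
      ∀ g : G, ∃ y : Fin m → ℕ, ∑ i, y i ≤ s ∧ ∑ i, y i • a i = g := by
  obtain ⟨G, _, _, A, h1, h2, h3⟩ := h.toSet
  obtain ⟨a, ha⟩ := homog A h2 h3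
  refine ⟨G, inferInstance, inferInstance, fun i => a i.succ - a 0, h1, fun g => ?_⟩
  obtain ⟨y, e1, e2⟩ := ha (g + s • a 0)
  rw [Fin.sum_univ_succ] at e1 e2
  refine ⟨fun i => y i.succ, e1 ▸ Nat.le_add_left _ _, ?_⟩
  simp only [smul_sub, sum_sub_distrib, ← sum_smul]
  rw [← e1, add_smul] at e2
  rw [sub_eq_iff_eq_add]
  exact add_left_cancel (a := y 0 • a 0) (by rw [e2]; abel)

variable {G : Type} [AddCommGroup G] [Finite G]

/-- One generator and `2 q` levels per block. -/
theorem blockA {m s t q : ℕ} (a : Fin m → G) (h : Fin t → G) (hq0 : 0 < q)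
    (hq : (Nat.card G).Coprime q)
    (H : ∀ g : G, ∃ (I : Finset (Fin t)) (y : Fin m → ℕ), ∑ i, y i ≤ s ∧
      ∑ i, y i • a i = g - ∑ i ∈ I, h i) :
    Cov (m + t) (s + 2 * q * t) (Nat.card G * q ^ t) := by
  classical
  have : NeZero q := ⟨hq0.ne'⟩
  have hs : ∀ x : G, ∃ z : G, q • z = x := (nsmulCoprime hq).surjective
  choose r hr using hs
  refine ⟨G × (Fin t → ZMod q), inferInstance, inferInstance, Fin m ⊕ Fin t, inferInstance,
    Sum.elim (fun i => (a i, 0)) fun j => (r (h j), Pi.single j 1), by simp,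
    by simp [Nat.card_prod], ?_⟩
  rintro ⟨g, w⟩
  obtain ⟨I, y, h1, h2⟩ := H (g - ∑ j, (w j).val • r (h j))
  refine ⟨Sum.elim y fun j => (w j).val + if j ∈ I then q else 0, ?_, ?_⟩
  · rw [Fintype.sum_sum_type]
    simp only [Sum.elim_inl, Sum.elim_inr]
    have : ∑ j, ((w j).val + if j ∈ I then q else 0) ≤ ∑ _j : Fin t, 2 * q :=
      sum_le_sum fun j _ => by have := (w j).val_lt; split_ifs <;> omega
    rw [sum_const, card_univ, Fintype.card_fin, smul_eq_mul, mul_comm] at this
    omega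
  · rw [Fintype.sum_sum_type]
    simp only [Sum.elim_inl, Sum.elim_inr]
    refine Prod.ext ?_ (funext fun j => ?_)
    · simp only [Prod.fst_add, Prod.fst_sum, Prod.smul_fst, h2, add_smul, sum_add_distrib, ite_smul,
        hr, zero_smul, sum_ite_mem, univ_inter]
      abel
    · simp only [Prod.snd_add, Prod.snd_sum, Prod.smul_snd, smul_zero, sum_const_zero, zero_add,
        Finset.sum_apply, Pi.smul_apply, Pi.single_apply, smul_ite, sum_ite_eq, mem_univ, if_true]
      split_ifs <;> simp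

/-- `2 q` generators and one level per block. -/
theorem blockB {m s t q : ℕ} (a : Fin m → G) (h : Fin t → G) (hq0 : 0 < q)
    (H : ∀ g : G, ∃ (I : Finset (Fin t)) (y : Fin m → ℕ), ∑ i, y i ≤ s ∧
      ∑ i, y i • a i = g - ∑ i ∈ I, h i) :
    Cov (m + 2 * q * t) (s + t) (Nat.card G * q ^ t) := by
  classical
  have : NeZero q := ⟨hq0.ne'⟩
  refine ⟨G × (Fin t → ZMod q), inferInstance, inferInstance, Fin m ⊕ (Fin t × Bool × ZMod q),
    inferInstance,
    Sum.elim (fun i => (a i, 0)) fun p => (if p.2.1 then h p.1 else 0, Pi.single p.1 p.2.2),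
    by simp [mul_comm], by simp [Nat.card_prod], ?_⟩
  rintro ⟨g, w⟩
  obtain ⟨I, y, h1, h2⟩ := H g
  obtain ⟨z, z1, z2⟩ : ∃ z : Fin t → Bool × ZMod q → ℕ, (∀ j, ∑ c, z j c = 1) ∧
      ∀ j (f : Bool × ZMod q → G × (Fin t → ZMod q)), ∑ c, z j c • f c = f (decide (j ∈ I), w j) :=
    ⟨fun j c => if c = (decide (j ∈ I), w j) then 1 else 0, fun j => by simp, fun j f => by simp⟩
  refine ⟨Sum.elim y fun p => z p.1 p.2, ?_, ?_⟩
  · rw [Fintype.sum_sum_type, Fintype.sum_prod_type]
    simpa [z1] using h1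
  · rw [Fintype.sum_sum_type, Fintype.sum_prod_type]
    simp only [Sum.elim_inl, Sum.elim_inr, z2]
    refine Prod.ext ?_ (funext fun j => ?_)
    · simp [Prod.fst_sum, h2]
    · simp [Prod.snd_sum, Finset.sum_apply, Pi.single_apply]

/-- Scaling the lattice of relations. -/
theorem Cov.scale {m s n t : ℕ} (h : Cov m s n) (ht : 0 < t) :
    Cov m (t * s + m * (t - 1)) (t ^ m * n) := by
  classical
  obtain ⟨G, _, _, a, h1, h2⟩ := h.toFin
  let φ : (Fin m → ℤ) →+ G :=
    { toFun := fun z => ∑ i, z i • a i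
      map_zero' := by simp
      map_add' := fun z w => by simp [add_smul, sum_add_distrib] }
  have hφ : ∀ z, φ z = ∑ i, z i • a i := fun _ => rfl
  let L : AddSubgroup (Fin m → ℤ) := φ.ker.map (zsmulAddGroupHom (t : ℤ))
  have hL : ∀ z, z ∈ L ↔ ∃ w, φ w = 0 ∧ (t : ℤ) • w = z := fun z => by
    simp [L, AddSubgroup.mem_map]
  let π := QuotientAddGroup.mk' L
  have hsum : ∀ y : Fin m → ℕ, ∑ i, y i • π (Pi.single i 1) = π fun i => (y i : ℤ) := fun y => by
    simp only [← map_nsmul, ← map_sum]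
    congr 1
    funext j
    simp [Finset.sum_apply, Pi.single_apply]
  have ht' : (0 : ℤ) < t := by exact_mod_cast ht
  have cover : ∀ g : (Fin m → ℤ) ⧸ L, ∃ y : Fin m → ℕ, ∑ i, y i ≤ t * s + m * (t - 1) ∧
      ∑ i, y i • π (Pi.single i 1) = g := fun g => by
    obtain ⟨z, rfl⟩ := QuotientAddGroup.mk'_surjective L g
    obtain ⟨y, e1, e2⟩ := h2 (φ fun i => z i / t)
    refine ⟨fun i => t * y i + (z i % t).toNat, ?_, ?_⟩
    · rw [sum_add_distrib, ← mul_sum]
      have : ∑ i, (z i % t).toNat ≤ ∑ _i : Fin m, (t - 1) := sum_le_sum fun i _ => by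
        have := Int.emod_lt_of_pos (z i) ht'
        omega
      rw [sum_const, card_univ, Fintype.card_fin, smul_eq_mul] at this
      exact add_le_add (Nat.mul_le_mul_left _ e1) this
    · rw [hsum, QuotientAddGroup.mk'_eq_mk']
      refine ⟨(t : ℤ) • ((fun i => z i / t) - fun i => (y i : ℤ)), (hL _).2 ⟨_, ?_, rfl⟩, ?_⟩
      · rw [map_sub, ← e2, hφ]; simp
      · funext i
        have := Int.mul_ediv_add_emod (z i) t
        have := Int.toNat_of_nonneg (Int.emod_nonneg (z i) ht'.ne')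
        simp only [Pi.add_apply, Pi.smul_apply, Pi.sub_apply, smul_eq_mul]
        push_cast
        linarith
  have hfin : Finite ((Fin m → ℤ) ⧸ L) := by
    refine Finite.of_surjective
      (fun y : simplex m (t * s + m * (t - 1)) => ∑ i, y.1 i • π (Pi.single i 1)) fun g => ?_
    obtain ⟨y, e1, e2⟩ := cover g
    exact ⟨⟨y, mem_simplex.2 e1⟩, e2⟩
  refine ⟨_, inferInstance, hfin, Fin m, inferInstance, _, by simp, ?_, cover⟩
  choose l _ hl using h2
  have hinj : Function.Injective fun p : (Fin m → Fin t) × G =>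
      π fun i => (p.1 i : ℕ) + (t : ℤ) * l p.2 i := by
    rintro ⟨r, g⟩ ⟨r', g'⟩ e
    obtain ⟨z, hz, e⟩ := (QuotientAddGroup.mk'_eq_mk' L).1 e
    obtain ⟨w, hw, rfl⟩ := (hL z).1 hz
    have e' : ∀ i, ((r i : ℕ) : ℤ) + t * (l g i + w i) = (r' i : ℕ) + t * l g' i := fun i => by
      have := congrFun e i
      simp only [Pi.add_apply, Pi.smul_apply, smul_eq_mul] at this
      linarith
    have hr : ∀ i, ((r i : ℕ) : ℤ) = (r' i : ℕ) := fun i => by
      have := congrArg (· % (t : ℤ)) (e' i)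
      simp only [Int.add_mul_emod_self_left] at this
      rwa [Int.emod_eq_of_lt (by positivity) (by exact_mod_cast (r i).2),
        Int.emod_eq_of_lt (by positivity) (by exact_mod_cast (r' i).2)] at this
    have hw' : w = (fun i => (l g' i : ℤ)) - fun i => (l g i : ℤ) := funext fun i => by
      have := e' i
      rw [hr i, add_right_inj] at this
      have := mul_left_cancel₀ ht'.ne' this
      simp only [Pi.sub_apply]
      linarith
    rw [hw', map_sub, hφ, hφ] at hw
    simp only [natCast_zsmul, hl, sub_eq_zero] at hw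
    exact Prod.ext (funext fun i => Fin.ext (by exact_mod_cast hr i)) hw.symm
  have := Nat.card_le_card_of_injective _ hinj
  rw [Nat.card_prod] at this
  rw [Nat.card_eq_fintype_card (α := Fin m → Fin t), Fintype.card_fun, Fintype.card_fin,
    Fintype.card_fin] at this
  exact (Nat.mul_le_mul_left _ h1).trans this

/-- Blowing up each generator to a line along the moment curve. -/
theorem blow {c s q : ℕ} (a : Fin c → G) (hq : q.Prime) (hc : c ≤ q)
    (H : ∀ g : G, ∃ I : Finset (Fin c), I.card = s ∧ ∑ i ∈ I, a i = g) :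
    Cov (c * q) s (Nat.card G * q ^ s) := by
  classical
  have := Fact.mk hq
  refine ⟨G × (Fin s → ZMod q), inferInstance, inferInstance, Fin c × ZMod q, inferInstance,
    fun p => (a p.1, fun j => p.2 * ((p.1 : ℕ) : ZMod q) ^ (j : ℕ)), by simp,
    by simp [Nat.card_prod], ?_⟩
  rintro ⟨g, w⟩
  obtain ⟨I, h1, h2⟩ := H g
  let e := I.orderEmbOfFin h1
  have hinj : Function.Injective fun k => ((e k : ℕ) : ZMod q) := fun k k' hk => by
    have := (ZMod.natCast_eq_natCast_iff' _ _ _).1 hk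
    rw [Nat.mod_eq_of_lt ((e k).2.trans_le hc), Nat.mod_eq_of_lt ((e k').2.trans_le hc)] at this
    exact e.injective (Fin.ext this)
  have hdet := Matrix.det_vandermonde_ne_zero_iff.2 hinj
  obtain ⟨v, hv⟩ := (Matrix.vecMul_surjective_iff_isUnit.2
    ((Matrix.isUnit_iff_isUnit_det _).2 hdet.isUnit)) w
  let ι : Fin s → Fin c × ZMod q := fun k => (e k, v k)
  have hι : Function.Injective ι := fun k k' hk => e.injective (congrArg Prod.fst hk)
  refine ⟨fun p => if p ∈ univ.image ι then 1 else 0, ?_, ?_⟩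
  · simp only [sum_boole, filter_mem_eq_inter, univ_inter, Nat.cast_id]
    exact card_image_le.trans (by simp)
  · simp only [ite_smul, one_smul, zero_smul, sum_ite_mem, univ_inter]
    rw [sum_image fun k _ k' _ hk => hι hk]
    refine Prod.ext ?_ (funext fun j => ?_)
    · rw [Prod.fst_sum, ← h2, ← I.image_orderEmbOfFin_univ h1,
        sum_image fun k _ k' _ hk => e.injective hk]
    · rw [Prod.snd_sum, Finset.sum_apply, ← hv]
      rfl

omit [AddCommGroup G] [Finite G] in
theorem cov_small_m (m s : ℕ) : Cov m s ((s / m + 1) ^ m) :=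
  ((cov_one m 0).scale (Nat.succ_pos (s / m))).mono le_rfl
    (by simpa using Nat.mul_div_le s m) (by simp)

omit [AddCommGroup G] [Finite G] in
theorem cov_small_s {m s q : ℕ} (hq : 0 < q) (h : 2 * q * s ≤ m) : Cov m s (q ^ s) :=
  (blockB (G := PUnit) (m := 0) (s := 0) (t := s) 0 0 hq
    fun _ => ⟨∅, 0, by simp, rfl⟩).mono (by omega) (by omega) (by simp)

theorem strict_cov {c s : ℕ} (a : Fin c → G)
    (H : ∀ g : G, ∃ I : Finset (Fin c), I.card = s ∧ ∑ i ∈ I, a i = g) :
    Cov c s (Nat.card G) := by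
  classical
  refine ⟨G, inferInstance, inferInstance, Fin c, inferInstance, a, by simp, le_rfl, fun g => ?_⟩
  obtain ⟨I, h1, h2⟩ := H g
  exact ⟨fun i => if i ∈ I then 1 else 0, by simp [h1], by simp [h2]⟩

end Pool.Agent.P.MP_6b6f6e_co.Ord
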