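import Pool.Agent.P.MP_6b6f6e_co.Ord.Core
import Pool.Agent.P.MP_6b6f6e_co.Ord.Build

/-!
The lower bound in the different ranges of parameters.
-/

namespace Pool.Agent.P.MP_6b6f6e_co.Ord

open Finset

theorem choose_ratio (x r : ℕ) {y : ℕ} (hy : 0 < y) :
    ((x + (y + r)).choose x : ℝ) ≤ (1 + (x : ℝ) / y) ^ r * (x + y).choose x := by
  have hy' : (0 : ℝ) < y := by exact_mod_cast hy
  induction r with
  | zero => simp
  | succ r ih =>
    have h := choose_step (y + r) x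
    rw [Nat.choose_symm_add, Nat.choose_symm_add, add_comm (y + r + 1) x, add_comm (y + r) x] at h
    have h' : ((x + (y + r + 1)).choose x : ℝ) * (y + r + 1)
        = (x + (y + r)).choose x * (x + (y + r + 1)) := by exact_mod_cast h
    have h1 : ((x : ℝ) + (y + r + 1)) ≤ (1 + x / y) * (y + r + 1) := by
      have : (x : ℝ) ≤ x / y * (y + r + 1) := by
        rw [div_mul_eq_mul_div, le_div_iff₀ hy']
        gcongr
        linarith [(Nat.cast_nonneg r : (0 : ℝ) ≤ r)]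
      linarith
    refine le_of_mul_le_mul_right ?_ (show (0 : ℝ) < y + r + 1 by positivity)
    rw [← add_assoc y r 1, h']
    calc _ ≤ ((1 + (x : ℝ) / y) ^ r * (x + y).choose x) * ((1 + x / y) * (y + r + 1)) := by gcongr
      _ = _ := by ring

theorem exp_four : Real.exp 4 ≤ 64 := by
  have h : Real.exp 1 ≤ 2.75 := Real.exp_one_lt_d9.le.trans (by norm_num)
  rw [show (4 : ℝ) = (4 : ℕ) by norm_num, ← Real.exp_one_pow]
  exact (pow_le_pow_left₀ (Real.exp_pos _).le h 4).trans (by norm_num)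

theorem choose_blocks {a b t : ℕ} (ha : 0 < a) (hab : a ≤ b) (ht : 4 * t ≤ a) :
    2 * (b / a) * t ≤ b / 2 ∧ ((a + b).choose a : ℝ)
      ≤ (256 * (b / a : ℕ)) ^ t * ((a - t) + (b - 2 * (b / a) * t)).choose (a - t) := by
  set q := b / a with hq
  have q1 : a * q ≤ b := Nat.mul_div_le _ _
  have q2 : b < a * (q + 1) := Nat.lt_mul_div_succ _ ha
  have q0 : 1 ≤ q := (Nat.le_div_iff_mul_le ha).2 (by omega)
  have r1 : 2 * (2 * q * t) ≤ b := by nlinarith
  refine ⟨by omega, ?_⟩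
  obtain ⟨c, rfl⟩ : ∃ c, a = c + t := ⟨a - t, by omega⟩
  obtain ⟨d, hd⟩ : ∃ d, b = d + 2 * q * t := ⟨b - 2 * q * t, by omega⟩
  have e : b - 2 * q * t = d := by omega
  rw [Nat.add_sub_cancel, e]
  have c0 : 0 < c := by omega
  have d0 : 0 < d := by omega
  have h1 := choose_ratio b t c0
  rw [add_comm b, add_comm b, ← Nat.choose_symm_add, ← Nat.choose_symm_add] at h1
  have h2 := choose_ratio c (2 * q * t) d0
  rw [← hd] at h2
  have c0' : (0 : ℝ) < c := by exact_mod_cast c0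
  have d0' : (0 : ℝ) < d := by exact_mod_cast d0
  have h3 : 1 + (b : ℝ) / c ≤ 4 * q := by
    have a1 : c + b ≤ 4 * q * c := by nlinarith
    have a2 : (c + b : ℝ) ≤ 4 * q * c := by exact_mod_cast a1
    rw [one_add_div c0'.ne', div_le_iff₀ c0']
    exact a2
  have h4 : (1 + (c : ℝ) / d) ^ (2 * q) ≤ 64 := by
    have a1 : 2 * q * c ≤ 4 * d := by nlinarith
    have a2 : ((2 * q : ℕ) * c : ℝ) ≤ 4 * d := by exact_mod_cast a1
    calc _ ≤ Real.exp (c / d) ^ (2 * q) := by gcongr; linarith [Real.add_one_le_exp ((c : ℝ) / d)]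
      _ ≤ Real.exp 4 := by
          rw [← Real.exp_nat_mul, Real.exp_le_exp, ← mul_div_assoc, div_le_iff₀ d0']
          exact a2
      _ ≤ _ := exp_four
  calc _ ≤ _ := h1
    _ ≤ (4 * q : ℝ) ^ t * (64 ^ t * (c + d).choose c) := by
        gcongr
        refine h2.trans ?_
        rw [pow_mul]
        gcongr
    _ = _ := by rw [← mul_assoc, ← mul_pow]; congr 2; ring

/-- The counting bound is attained up to the factor `D`. -/
def Good (D : ℝ) (m s : ℕ) : Prop := ∃ n : ℕ, Cov m s n ∧ ((m + s).choose m : ℝ) ≤ D * n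

theorem Good.mono {D E : ℝ} {m s : ℕ} (h : Good D m s) (hD : D ≤ E) : Good E m s := by
  obtain ⟨n, h1, h2⟩ := h
  exact ⟨n, h1, h2.trans (by gcongr)⟩

theorem exists_t {L : ℕ} (hL : 1 ≤ L) :
    ∃ t, 2 ^ 19 * L ^ 2 ≤ 2 ^ t ∧ 2 ^ t ≤ 2 ^ 20 * L ^ 2 := by
  have h0 : 2 ^ 19 * L ^ 2 ≠ 0 := by positivity
  refine ⟨Nat.log 2 (2 ^ 19 * L ^ 2) + 1, (Nat.lt_pow_succ_log_self (by norm_num) _).le, ?_⟩
  have := Nat.pow_log_le_self 2 h0
  rw [pow_succ]
  omega

theorem mid {m s L : ℕ} (hL : 1 ≤ L) (hm : m < 2 ^ (3 * L)) (hs : s < 2 ^ (3 * L))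
    (hK : 2 ^ 22 * L ^ 2 ≤ min m s) : Good ((2 ^ 20 * L ^ 2) ^ 8 * (min m s : ℕ)) m s := by
  obtain ⟨t, t1, t2⟩ := exists_t hL
  have t3 : t < 2 ^ t := Nat.lt_two_pow_self
  have L1 : 1 ≤ L ^ 2 := Nat.one_le_pow _ _ hL
  have t4 : (256 : ℝ) ^ t ≤ (2 ^ 20 * L ^ 2) ^ 8 := by
    have : (2 : ℝ) ^ t ≤ 2 ^ 20 * L ^ 2 := by exact_mod_cast t2
    rw [show (256 : ℝ) = 2 ^ 8 by norm_num, ← pow_mul, mul_comm, pow_mul]
    gcongr
  have fin : ∀ {N N' n q K : ℕ}, (N : ℝ) ≤ (256 * q) ^ t * N' → N' ≤ K * n → K ≤ min m s →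
      (N : ℝ) ≤ (2 ^ 20 * L ^ 2) ^ 8 * (min m s : ℕ) * (n * q ^ t : ℕ) := by
    intro N N' n q K h1 h2 h3
    have h4 : (N' : ℝ) ≤ (min m s : ℕ) * n := by
      exact_mod_cast h2.trans (Nat.mul_le_mul_right _ h3)
    calc _ ≤ _ := h1
      _ ≤ (256 * q) ^ t * ((min m s : ℕ) * n) := by gcongr
      _ = 256 ^ t * (min m s : ℕ) * (n * q ^ t : ℕ) := by push_cast; ring
      _ ≤ _ := by gcongr
  rcases le_total m s with h | h
  · rw [min_eq_left h] at hK
    obtain ⟨c1, c2⟩ := choose_blocks (a := m) (b := s) (t := t) (by omega) h (by omega)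
    have q0 : 0 < s / m := Nat.div_pos h (by omega)
    have q1 : s / m ≤ s / 3 := Nat.div_le_div_left (by omega) (by norm_num)
    obtain ⟨G, _, _, a, g, h1, h2, h3⟩ := stage (m := m - t) (s := s - 2 * (s / m) * t) hL
      (by omega) (by omega) (by omega) t1
    exact ⟨_, (blockA a g q0 (h1 _ q0 (by omega)) h3).mono (by omega) (by omega) le_rfl,
      fin c2 h2 (by omega)⟩
  · rw [min_eq_right h] at hK
    obtain ⟨c1, c2⟩ := choose_blocks (a := s) (b := m) (t := t) (by omega) h (by omega)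
    have q0 : 0 < m / s := Nat.div_pos h (by omega)
    obtain ⟨G, _, _, a, g, -, h2, h3⟩ := stage (m := m - 2 * (m / s) * t) (s := s - t) hL
      (by omega) (by omega) (by omega) t1
    rw [Nat.choose_symm_add (a := s), add_comm s, Nat.choose_symm_add (a := s - t),
      add_comm (s - t)] at c2
    exact ⟨_, (blockB a g q0 h3).mono (by omega) (by omega) le_rfl, fin c2 h2 (by omega)⟩

theorem pow_ratio {x y r : ℕ} (hy : 0 < y) {c : ℝ} (h : (r * x : ℝ) ≤ c * y) :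
    ((y + x : ℕ) : ℝ) ^ r ≤ Real.exp c * y ^ r := by
  have hy' : (0 : ℝ) < y := by exact_mod_cast hy
  calc ((y + x : ℕ) : ℝ) ^ r ≤ (Real.exp (x / y) * y) ^ r := by
        gcongr
        have := mul_le_mul_of_nonneg_right (Real.add_one_le_exp ((x : ℝ) / y)) hy'.le
        rw [add_mul, div_mul_cancel₀ _ hy'.ne'] at this
        push_cast
        linarith
    _ ≤ _ := by
        rw [mul_pow, ← Real.exp_nat_mul]
        gcongr
        rwa [← mul_div_assoc, div_le_iff₀ hy']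

theorem tall {m s : ℕ} {D : ℝ} (hm : 1 ≤ m) (hs : m ^ 2 ≤ s)
    (H : ∀ s', m ^ 2 ≤ s' → s' ≤ 3 * m ^ 2 → Good D m s') : Good (3 * D) m s := by
  have mm : m ≤ m ^ 2 := Nat.le_self_pow two_ne_zero m
  set t := (s + m) / (m ^ 2 + m) with ht
  have t0 : 0 < t := Nat.div_pos (by omega) (by omega)
  have t1 : (m ^ 2 + m) * t ≤ s + m := Nat.mul_div_le _ _
  have t2 : s + m < (m ^ 2 + m) * (t + 1) := Nat.lt_mul_div_succ _ (by omega)
  set w := (s + m) / t with hw
  have w1 : t * w ≤ s + m := Nat.mul_div_le _ _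
  have w2 : s + m < t * (w + 1) := Nat.lt_mul_div_succ _ t0
  have w3 : m ^ 2 + m ≤ w := (Nat.le_div_iff_mul_le t0).2 t1
  have w4 : w ≤ 2 * (m ^ 2 + m) := by
    refine Nat.le_of_mul_le_mul_left (w1.trans (t2.le.trans ?_)) t0
    nlinarith
  obtain ⟨u, hu⟩ : ∃ u, w = u + m := ⟨w - m, by omega⟩
  obtain ⟨n, h1, h2⟩ := H u (by omega) (by omega)
  refine ⟨_, (h1.scale t0).mono le_rfl ?_ le_rfl, ?_⟩
  · obtain ⟨v, hv⟩ : ∃ v, t = v + 1 := ⟨t - 1, by omega⟩
    rw [hu, hv] at w1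
    rw [hv, Nat.add_sub_cancel]
    nlinarith
  · have a1 := Nat.choose_le_pow_div (α := ℝ) m (m + s)
    have a2 := Nat.pow_le_choose (α := ℝ) m (m + u)
    rw [show m + u + 1 - m = u + 1 by omega] at a2
    have a3 := pow_ratio (x := m) (y := u + 1) (r := m) (c := 1) (by omega) (by
      have : m * m ≤ 1 * (u + 1) := by nlinarith
      exact_mod_cast this)
    have a4 : ((m + s : ℕ) : ℝ) ≤ t * (u + 1 + m : ℕ) := by
      have : m + s ≤ t * (u + 1 + m) := by rw [hu] at w2; nlinarith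
      exact_mod_cast this
    have a5 := Real.exp_one_lt_three.le
    calc _ ≤ _ := a1
      _ ≤ ((t : ℝ) * (u + 1 + m : ℕ)) ^ m / m.factorial := by gcongr
      _ ≤ (t : ℝ) ^ m * (3 * ((u + 1 : ℕ) : ℝ) ^ m) / m.factorial := by
          rw [mul_pow]; gcongr; exact a3.trans (by gcongr)
      _ = 3 * (t : ℝ) ^ m * (((u + 1 : ℕ) : ℝ) ^ m / m.factorial) := by ring
      _ ≤ 3 * (t : ℝ) ^ m * (D * n) := by gcongr; exact a2.trans h2
      _ = _ := by push_cast; ring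

theorem strict {c s j : ℕ} (hj : 1 ≤ j) (hs : s ≤ c) (h : c.choose s < 2 ^ j) :
    ∃ (G : Type) (_ : AddCommGroup G) (_ : Finite G) (a : Fin c → G),
      c.choose s ≤ 2 * j * Nat.card G ∧
      ∀ g : G, ∃ I : Finset (Fin c), I.card = s ∧ ∑ i ∈ I, a i = g := by
  set B := c.choose s with hB
  have B0 : 0 < B := Nat.choose_pos hs
  have b1 : j * (B / j) ≤ B := Nat.mul_div_le _ _
  have b2 : B < j * (B / j + 1) := Nat.lt_mul_div_succ _ hj
  obtain ⟨n, n0, n1, n2⟩ : ∃ n : ℕ, 0 < n ∧ B ≤ 2 * j * n ∧ (1 - 1 / (n : ℝ)) ^ B * n < 1 := by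
    rcases Nat.eq_zero_or_pos (B / j) with e | e
    · exact ⟨1, one_pos, by rw [e] at b2; omega, by simp [B0.ne']⟩
    refine ⟨B / j, e, by nlinarith, ?_⟩
    set n := B / j
    have n0 : (1 : ℝ) ≤ n := by exact_mod_cast e
    have a1 : (n : ℝ) < Real.exp j := by
      have : n < 2 ^ j := lt_of_le_of_lt (Nat.div_le_self _ _) h
      exact lt_of_lt_of_le (by exact_mod_cast this) (two_pow_le_exp j)
    have a2 : (1 - 1 / (n : ℝ)) ^ B ≤ Real.exp (-j) := by
      calc _ ≤ Real.exp (-(1 / n)) ^ B :=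
            pow_le_pow_left₀ (sub_nonneg.2 ((div_le_one (by linarith)).2 n0))
              (by linarith [Real.add_one_le_exp (-(1 / (n : ℝ)))]) _
        _ ≤ _ := by
            rw [← Real.exp_nat_mul, Real.exp_le_exp, mul_neg, neg_le_neg_iff, mul_one_div,
              le_div_iff₀ (by linarith)]
            exact_mod_cast b1
    calc _ ≤ Real.exp (-j) * n := by gcongr
      _ < Real.exp (-j) * Real.exp j := by gcongr
      _ = 1 := by rw [← Real.exp_add]; simp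
  have : NeZero n := ⟨n0.ne'⟩
  obtain ⟨a, ha⟩ := pascal (G := ZMod n) c s (by rwa [ZMod.card])
  exact ⟨ZMod n, inferInstance, inferInstance, a, by rwa [Nat.card_zmod], ha⟩

theorem wide {m s L : ℕ} (hL : 1 ≤ L) (hs : 2 ≤ s) (hsL : s < 2 ^ L) (hm : s ^ 2 ≤ m) :
    Good (1024 * L * s) m s := by
  have s2 : 2 * s ≤ s ^ 2 := by nlinarith
  obtain ⟨c, q, c1, c2, c3, c4, c5⟩ : ∃ c q : ℕ, s ^ 2 ≤ c ∧ c ≤ 16 * s ^ 4 ∧ c * q ≤ m ∧
      m < (c + 1) * q ∧ (q = 1 ∨ q.Prime ∧ c ≤ q) := by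
    rcases le_total m (16 * s ^ 4) with h | h
    · exact ⟨m, 1, hm, h, by omega, by omega, Or.inl rfl⟩
    have a0 : 0 < 4 * s ^ 2 := by omega
    have a1 : 4 * s ^ 2 * (m / (4 * s ^ 2)) ≤ m := Nat.mul_div_le _ _
    have a2 : m < 4 * s ^ 2 * (m / (4 * s ^ 2) + 1) := Nat.lt_mul_div_succ _ a0
    have a3 : 4 * s ^ 2 ≤ m / (4 * s ^ 2) := (Nat.le_div_iff_mul_le a0).2 (by nlinarith)
    obtain ⟨q, hq, q1, q2⟩ := Nat.exists_prime_lt_and_le_two_mul (m / (4 * s ^ 2)) (by omega)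
    have a4 : m / q < 4 * s ^ 2 :=
      (Nat.div_lt_iff_lt_mul hq.pos).2 (a2.trans_le (Nat.mul_le_mul_left _ q1))
    refine ⟨m / q, q, (Nat.le_div_iff_mul_le hq.pos).2 (by nlinarith), by nlinarith,
      Nat.div_mul_le_self _ _, ?_, Or.inr ⟨hq, by omega⟩⟩
    rw [mul_comm]; exact Nat.lt_mul_div_succ _ hq.pos
  have q0 : 1 ≤ q := by
    rcases c5 with h | h
    · omega
    · exact h.1.pos
  obtain ⟨G, _, _, a, h1, h2⟩ := strict (c := c) (s := s) (j := 8 * L * s) (by nlinarith)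
    (by omega) (by
      have a1 : s ^ 4 < (2 ^ L) ^ 4 := Nat.pow_lt_pow_left hsL (by norm_num)
      have a2 : 2 ^ (4 + L * 4) ≤ 2 ^ (8 * L) := Nat.pow_le_pow_right (by norm_num) (by omega)
      rw [← pow_mul] at a1
      rw [pow_add] at a2
      rw [pow_mul]
      exact (Nat.choose_le_pow _ _).trans_lt (Nat.pow_lt_pow_left (by omega) (by omega)))
  refine ⟨Nat.card G * q ^ s, ?_, ?_⟩
  · rcases c5 with rfl | ⟨h3, h4⟩
    · exact (strict_cov a h2).mono (by omega) le_rfl (by simp)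
    · exact (blow a h3 h4 h2).mono c3 le_rfl le_rfl
  · have a1 := Nat.choose_le_pow_div (α := ℝ) s (m + s)
    have a2 := Nat.pow_le_choose (α := ℝ) s c
    obtain ⟨u, hu⟩ : ∃ u, c + 1 = u + s := ⟨c + 1 - s, by omega⟩
    rw [show c + 1 - s = u by omega] at a2
    have a3 := pow_ratio (x := 2 * s) (y := u) (r := s) (c := 4) (by omega) (by
      have : s * (2 * s) ≤ 4 * u := by nlinarith
      exact_mod_cast this)
    have a4 : ((m + s : ℕ) : ℝ) ≤ q * (u + 2 * s : ℕ) := by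
      have : m + s ≤ q * (u + 2 * s) := by rw [hu] at c4; nlinarith
      exact_mod_cast this
    have a5 : (c.choose s : ℝ) ≤ (2 * (8 * L * s) * Nat.card G : ℕ) := by exact_mod_cast h1
    have a6 := exp_four
    rw [Nat.choose_symm_add]
    calc _ ≤ _ := a1
      _ ≤ ((q : ℝ) * (u + 2 * s : ℕ)) ^ s / s.factorial := by gcongr
      _ ≤ (q : ℝ) ^ s * (64 * (u : ℝ) ^ s) / s.factorial := by
          rw [mul_pow]; gcongr; exact a3.trans (by gcongr)
      _ = 64 * (q : ℝ) ^ s * ((u : ℝ) ^ s / s.factorial) := by ring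
      _ ≤ 64 * (q : ℝ) ^ s * (2 * (8 * L * s) * Nat.card G : ℕ) := by gcongr; exact a2.trans a5
      _ = _ := by push_cast; ring

theorem small {m s K : ℕ} (hm : 1 ≤ m) (hs : 1 ≤ s) (h : min m s ≤ K) :
    Good ((5 * K) ^ K : ℕ) m s := by
  have key : ∀ {a q : ℕ}, 1 ≤ a → a ≤ K → min m s = a → m + s ≤ 5 * a * q →
      ((m + s).choose m : ℝ) ≤ ((5 * K) ^ K : ℕ) * (q ^ a : ℕ) := by
    intro a q h1 h2 h3 h4
    have : (m + s).choose m ≤ (5 * K) ^ K * q ^ a := by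
      calc _ ≤ _ := choose_le_pow_min m s
        _ ≤ (5 * a * q) ^ a := by rw [h3]; exact Nat.pow_le_pow_left h4 _
        _ ≤ _ := by
            rw [mul_pow]
            exact Nat.mul_le_mul_right _ ((Nat.pow_le_pow_left (by omega) _).trans
              (Nat.pow_le_pow_right (by omega) h2))
    exact_mod_cast this
  rcases le_total m s with c | c
  · have a1 : s < m * (s / m + 1) := Nat.lt_mul_div_succ _ hm
    exact ⟨_, cov_small_m m s, key hm (by omega) (min_eq_left c) (by nlinarith)⟩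
  · have a1 : 2 * s * (m / (2 * s)) ≤ m := Nat.mul_div_le _ _
    have a2 : m < 2 * s * (m / (2 * s) + 1) := Nat.lt_mul_div_succ _ (by omega)
    rcases Nat.eq_zero_or_pos (m / (2 * s)) with e | e
    · rw [e] at a2
      exact ⟨_, (cov_one m s).mono le_rfl le_rfl (one_pow s).le,
        key hs (by omega) (min_eq_right c) (by omega)⟩
    · exact ⟨_, cov_small_s e (by nlinarith), key hs (by omega) (min_eq_right c) (by nlinarith)⟩

end Pool.Agent.P.MP_6b6f6e_co.Ord
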