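import Pool.Agent.P.MP_6b6f6e_co.Ord.Base

/-!
Few pairs of lattice points of a simplex satisfy a nontrivial linear congruence.
-/

namespace Pool.Agent.P.MP_6b6f6e_co.Ord

open Finset

/-- Reduction modulo `p`. -/
def red (p : ℕ) {m : ℕ} (y : Fin m → ℕ) : Fin m → ZMod p := fun i => (y i : ZMod p)

theorem cast_inj_of_lt {p x y : ℕ} (hx : x < p) (hy : y < p) (h : (x : ZMod p) = y) : x = y := by
  have := (ZMod.natCast_eq_natCast_iff' _ _ _).1 h
  rwa [Nat.mod_eq_of_lt hx, Nat.mod_eq_of_lt hy] at this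

theorem le_of_mem_simplex {m s : ℕ} {y : Fin m → ℕ} (h : y ∈ simplex m s) (i : Fin m) : y i ≤ s :=
  (single_le_sum (f := y) (fun _ _ => Nat.zero_le _) (mem_univ i)).trans (mem_simplex.1 h)

theorem half_count {m s p : ℕ} [Fact p.Prime] (hs : s < p) {a b : ZMod p} (hb : b ≠ 0)
    (hab : ∀ v : ℤ, |v| ≤ s → a + b * v ≠ 0) (z : Fin m → ZMod p)
    (Z : Finset ((Fin m → ℕ) × (Fin m → ℕ)))
    (hZ : ∀ q ∈ Z, q.1 ∈ simplex m s ∧ q.2 ∈ simplex m s ∧ a • red p q.1 + b • red p q.2 = z) :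
    Z.card ≤ (m + s / 2).choose m := by
  have step : ∀ q ∈ Z, ∀ r ∈ Z, ∀ i, r.1 i ≠ q.1 i + 1 := fun q hq r hr i e => by
    obtain ⟨-, q2, q3⟩ := hZ q hq
    obtain ⟨-, r2, r3⟩ := hZ r hr
    have e1 := congrFun (q3.trans r3.symm) i
    simp only [Pi.add_apply, Pi.smul_apply, smul_eq_mul, red, e] at e1
    have := le_of_mem_simplex q2 i
    have := le_of_mem_simplex r2 i
    refine hab ((r.2 i : ℤ) - q.2 i) (abs_le.2 ⟨by omega, by omega⟩) ?_
    push_cast at e1 ⊢
    linear_combination -e1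
  rw [← card_simplex]
  refine card_le_card_of_injOn (fun q i => q.1 i / 2) (fun q hq => ?_) fun q hq r hr e => ?_
  · have h1 := mem_simplex.1 (hZ q hq).1
    have h2 : ∑ i, 2 * (q.1 i / 2) ≤ ∑ i, q.1 i := sum_le_sum fun i _ => Nat.mul_div_le _ _
    rw [← mul_sum] at h2
    exact mem_simplex.2 (show ∑ i, q.1 i / 2 ≤ s / 2 by omega)
  · have e1 : q.1 = r.1 := funext fun i => by
      have a1 := step q hq r hr i
      have a2 := step r hr q hq i
      have a3 := congrFun e i
      simp only at a3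
      omega
    obtain ⟨-, q2, q3⟩ := hZ q hq
    obtain ⟨-, r2, r3⟩ := hZ r hr
    refine Prod.ext e1 (funext fun i => ?_)
    have e2 := congrFun (q3.trans r3.symm) i
    simp only [Pi.add_apply, Pi.smul_apply, smul_eq_mul, red, e1, add_right_inj] at e2
    exact cast_inj_of_lt ((le_of_mem_simplex q2 i).trans_lt hs)
      ((le_of_mem_simplex r2 i).trans_lt hs) (mul_left_cancel₀ hb e2)

theorem sum_count {m s p : ℕ} [Fact p.Prime] (hs : 2 * s < p) {a : ZMod p} (ha : a ≠ 0)
    (z : Fin m → ZMod p) (Z : Finset ((Fin m → ℕ) × (Fin m → ℕ)))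
    (hZ : ∀ q ∈ Z, q.1 ∈ simplex m s ∧ q.2 ∈ simplex m s ∧ a • red p q.1 + a • red p q.2 = z) :
    (Z.card : ℝ) ≤ Real.exp 1 * (1 + 2 * (s / (m + 1) : ℝ)) ^ m := by
  rcases Z.eq_empty_or_nonempty with rfl | ⟨r, hr⟩
  · simp only [card_empty, Nat.cast_zero]; positivity
  obtain ⟨r1, r2, r3⟩ := hZ r hr
  have key : ∀ q ∈ Z, ∀ i, q.1 i + q.2 i = r.1 i + r.2 i := fun q hq i => by
    obtain ⟨q1, q2, q3⟩ := hZ q hq
    have e := congrFun (q3.trans r3.symm) i
    simp only [Pi.add_apply, Pi.smul_apply, smul_eq_mul, red, ← mul_add] at e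
    have := le_of_mem_simplex q1 i
    have := le_of_mem_simplex q2 i
    have := le_of_mem_simplex r1 i
    have := le_of_mem_simplex r2 i
    exact cast_inj_of_lt (p := p) (by omega) (by omega)
      (by push_cast; exact mul_left_cancel₀ ha e)
  have h1 : Z.card ≤ ∏ i, (r.1 i + r.2 i + 1) := by
    have := card_le_card_of_injOn (s := Z)
      (t := Fintype.piFinset fun i => range (r.1 i + r.2 i + 1)) Prod.fst
      (fun q hq => mem_coe.2 (Fintype.mem_piFinset.2 fun i => mem_range.2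
        (by have := key q hq i; omega)))
      fun q hq q' hq' e => Prod.ext e (funext fun i => by
        have := key q hq i
        have := key q' hq' i
        have := congrFun e i
        omega)
    simpa using this
  set Y : ℝ := 1 + 2 * (s / (m + 1) : ℝ) with hY
  have hY0 : 0 < Y := by positivity
  have h2 : ∑ i, ((r.1 i : ℝ) + r.2 i + 1) ≤ 2 * s + m := by
    have a1 : ((∑ i, r.1 i : ℕ) : ℝ) ≤ s := by exact_mod_cast mem_simplex.1 r1
    have a2 : ((∑ i, r.2 i : ℕ) : ℝ) ≤ s := by exact_mod_cast mem_simplex.1 r2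
    push_cast at a1 a2
    simp only [sum_add_distrib, sum_const, card_univ, Fintype.card_fin, nsmul_eq_mul, mul_one]
    linarith
  calc (Z.card : ℝ) ≤ ∏ i, ((r.1 i : ℝ) + r.2 i + 1) := by exact_mod_cast h1
    _ ≤ ∏ i, Y * Real.exp (((r.1 i : ℝ) + r.2 i + 1) / Y - 1) := by
        refine prod_le_prod (fun i _ => by positivity) fun i _ => ?_
        have := Real.add_one_le_exp (((r.1 i : ℝ) + r.2 i + 1) / Y - 1)
        rw [← div_le_iff₀' hY0]
        linarith
    _ = Real.exp (∑ i, (((r.1 i : ℝ) + r.2 i + 1) / Y - 1)) * Y ^ m := by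
        rw [prod_mul_distrib, Real.exp_sum, prod_const, card_univ, Fintype.card_fin, mul_comm]
    _ ≤ _ := by
        gcongr
        rw [sum_sub_distrib, ← sum_div, sum_const, card_univ, Fintype.card_fin, nsmul_eq_mul,
          mul_one, sub_le_iff_le_add, div_le_iff₀ hY0]
        have : (1 + (m : ℝ)) * Y = 2 * s + m + 1 := by rw [hY]; field_simp; ring
        linarith

theorem choose_half (m s : ℕ) :
    4 ^ min m s * (m + s / 2).choose m ≤ 3 ^ min m s * (m + s).choose m := by
  induction m with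
  | zero => simp
  | succ m ih =>
    refine Nat.le_of_mul_le_mul_right ?_ (Nat.succ_pos m)
    rw [mul_assoc, mul_assoc, Nat.succ_eq_add_one, choose_step, choose_step]
    rcases le_or_gt (m + 1) s with h | h
    · rw [min_eq_left h]
      rw [min_eq_left (by omega)] at ih
      calc _ = (4 ^ m * (m + s / 2).choose m) * (4 * (m + 1 + s / 2)) := by ring
        _ ≤ (3 ^ m * (m + s).choose m) * (3 * (m + 1 + s)) := Nat.mul_le_mul ih (by omega)
        _ = _ := by ring
    · rw [min_eq_right h.le]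
      rw [min_eq_right (by omega)] at ih
      rw [← mul_assoc, ← mul_assoc]
      exact Nat.mul_le_mul ih (by omega)

theorem choose_eq_prod (m s : ℕ) :
    ((m + s).choose m : ℝ) = ∏ j ∈ range m, (1 + (s : ℝ) / (j + 1)) := by
  induction m with
  | zero => simp
  | succ m ih =>
    have h : (((m + 1 + s).choose (m + 1) * (m + 1) : ℕ) : ℝ) = _ := congrArg _ (choose_step m s)
    push_cast at h
    rw [prod_range_succ, ← ih]
    field_simp
    linarith

theorem exp_half_le {x : ℝ} (h0 : 0 ≤ x) (h1 : x ≤ 1) : Real.exp (x / 2) ≤ 1 + x := by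
  have h2 := Real.add_one_le_exp (-(x / 2))
  have h3 := Real.exp_pos (x / 2)
  have h4 : Real.exp (-(x / 2)) * Real.exp (x / 2) = 1 := by rw [← Real.exp_add]; simp
  nlinarith [mul_nonneg h0 (sub_nonneg.2 h1)]

theorem choose_gap {m : ℕ} (hm : 3 ≤ m) (s : ℕ) :
    (1 + 2 * (s / (m + 1) : ℝ)) ^ m * Real.exp ((min m s : ℕ) / 108) ≤ (m + s).choose m := by
  set z : ℝ := s / (m + 1) with hz
  set κ : ℝ := (min m s : ℕ) / (m + 1) with hκ
  have hd : (0 : ℝ) < m + 1 := by positivity
  have z0 : 0 ≤ z := by positivity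
  have κ0 : 0 ≤ κ := by positivity
  have κz : κ ≤ z := by rw [hκ, hz]; gcongr; exact min_le_right _ _
  have κ1 : κ ≤ 1 := by
    rw [hκ, div_le_one hd]
    exact_mod_cast (min_le_left m s).trans (Nat.le_succ m)
  have fac : ∀ j ∈ range m, (1 + 2 * z) ^ 2 * (if j < (m + 1) / 4 then Real.exp (4 / 27 * κ) else 1)
      ≤ (1 + (s : ℝ) / (j + 1)) * (1 + (s : ℝ) / ((m - 1 - j : ℕ) + 1)) := fun j hj => by
    have hj := mem_range.1 hj
    have e : (((m - 1 - j : ℕ) : ℝ) + 1) = m + 1 - (j + 1) := by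
      have : (m - 1 - j) + 1 + j = m := by omega
      have : (((m - 1 - j) + 1 + j : ℕ) : ℝ) = m := by exact_mod_cast this
      push_cast at this
      linarith
    set u : ℝ := (j + 1) / (m + 1) with hu
    have u0 : 0 < u := by positivity
    have u1 : u < 1 := by
      rw [hu, div_lt_one hd]
      exact_mod_cast Nat.succ_lt_succ hj
    have e1 : (1 + (s : ℝ) / (j + 1)) * (1 + (s : ℝ) / ((m - 1 - j : ℕ) + 1))
        = 1 + (z + z ^ 2) / (u * (1 - u)) := by
      have a1 : (j : ℝ) + 1 = u * (m + 1) := by rw [hu]; field_simp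
      have a2 : (s : ℝ) = z * (m + 1) := by rw [hz]; field_simp
      have a3 : 1 - u ≠ 0 := by linarith
      rw [e, a1, a2, show (m : ℝ) + 1 - u * (m + 1) = (1 - u) * (m + 1) by ring]
      field_simp
      ring
    have uu : 0 < u * (1 - u) := mul_pos u0 (by linarith)
    have zz : 0 ≤ z + z ^ 2 := by positivity
    rw [e1]
    split_ifs with c
    · have u4 : u ≤ 1 / 4 := by
        rw [hu, div_le_div_iff₀ hd (by norm_num)]
        have : (j + 1) * 4 ≤ 1 * (m + 1) := by omega
        exact_mod_cast this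
      have b1 : (z + z ^ 2) * (16 / 3) ≤ (z + z ^ 2) / (u * (1 - u)) := by
        rw [le_div_iff₀ uu, mul_assoc]
        exact mul_le_of_le_one_right zz (by nlinarith)
      have b2 := exp_half_le (x := 8 / 27 * κ) (by positivity) (by linarith)
      rw [show 8 / 27 * κ / 2 = 4 / 27 * κ by ring] at b2
      have b3 : (1 + 2 * z) ^ 2 * κ ≤ 9 / 2 * (z + z ^ 2) := by
        rcases le_total z 1 with c | c
        · have : (1 + 2 * z) ^ 2 * κ ≤ (1 + 2 * z) ^ 2 * z := by gcongr
          nlinarith [mul_nonneg z0 (sub_nonneg.2 c), mul_nonneg (mul_nonneg z0 z0) (sub_nonneg.2 c)]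
        · have : (1 + 2 * z) ^ 2 * κ ≤ (1 + 2 * z) ^ 2 * 1 := by gcongr
          nlinarith
      have b4 : (1 + 2 * z) ^ 2 * Real.exp (4 / 27 * κ) ≤ (1 + 2 * z) ^ 2 * (1 + 8 / 27 * κ) := by
        gcongr
      nlinarith
    · have b1 : (z + z ^ 2) * 4 ≤ (z + z ^ 2) / (u * (1 - u)) := by
        rw [le_div_iff₀ uu, mul_assoc]
        exact mul_le_of_le_one_right zz (by nlinarith [sq_nonneg (2 * u - 1)])
      nlinarith
  have h1 := prod_le_prod (fun j _ => by positivity) fac
  rw [prod_mul_distrib, prod_mul_distrib, prod_range_reflect (fun j => 1 + (s : ℝ) / (j + 1)) m,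
    ← choose_eq_prod, prod_const, card_range, prod_ite, prod_const_one, mul_one, prod_const,
    ← Real.exp_nat_mul] at h1
  have h2 : (range m).filter (fun j => j < (m + 1) / 4) = range ((m + 1) / 4) := by
    ext j; simp only [mem_filter, mem_range]; omega
  rw [h2, card_range] at h1
  have h3 : 2 * ((min m s : ℕ) / 108 : ℝ) ≤ ((m + 1) / 4 : ℕ) * (4 / 27 * κ) := by
    have a1 : m + 1 ≤ 8 * ((m + 1) / 4) := by omega
    have a2 : (m : ℝ) + 1 ≤ 8 * ((m + 1) / 4 : ℕ) := by exact_mod_cast a1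
    have a3 : ((min m s : ℕ) : ℝ) = κ * (m + 1) := by rw [hκ]; field_simp
    rw [a3]
    nlinarith
  refine (pow_le_pow_iff_left₀ (by positivity) (by positivity) two_ne_zero).1 (le_trans ?_
    (h1.trans_eq (sq _).symm))
  rw [mul_pow, ← pow_mul, ← pow_mul, mul_comm m 2, ← Real.exp_nat_mul]
  exact mul_le_mul_of_nonneg_left (Real.exp_le_exp.2 (by exact_mod_cast h3)) (by positivity)

theorem pair_count {m s p : ℕ} [Fact p.Prime] (hm : 3 ≤ m) (hs : 1 ≤ s) (hp : 2 * s ^ 2 < p)
    {a b : ZMod p} (ha : a ≠ 0) (hb : b ≠ 0) (hab : a + b ≠ 0) (z : Fin m → ZMod p)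
    (Z : Finset ((Fin m → ℕ) × (Fin m → ℕ)))
    (hZ : ∀ q ∈ Z, q.1 ∈ simplex m s ∧ q.2 ∈ simplex m s ∧ a • red p q.1 + b • red p q.2 = z) :
    (Z.card : ℝ) ≤ 3 * Real.exp (-((min m s : ℕ) / 108)) * (m + s).choose m := by
  have hsp : 2 * s < p := by nlinarith
  have hE := Real.exp_pos (-((min m s : ℕ) / 108 : ℝ))
  by_cases e : a = b
  · subst e
    refine (sum_count hsp ha z Z hZ).trans ?_
    have h1 := choose_gap hm s
    rw [← le_div_iff₀ (Real.exp_pos _), div_eq_mul_inv _ (Real.exp _), ← Real.exp_neg] at h1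
    calc _ ≤ 3 * (((m + s).choose m : ℝ) * Real.exp (-((min m s : ℕ) / 108))) := by
          gcongr
          exact Real.exp_one_lt_three.le
      _ = _ := by ring
  have h1 : Z.card ≤ (m + s / 2).choose m := by
    by_cases c : ∀ v : ℤ, |v| ≤ s → a + b * v ≠ 0
    · exact half_count (by omega) hb c z Z hZ
    push Not at c
    obtain ⟨v, v1, v2⟩ := c
    rw [← card_map (Equiv.prodComm _ _).toEmbedding]
    refine half_count (a := b) (b := a) (by omega) ha (fun u u1 u2 => ?_) z _ fun q hq => ?_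
    · have a1 : ((u * v - 1 : ℤ) : ZMod p) = 0 := by
        push_cast
        exact mul_left_cancel₀ ha (by linear_combination v * u2 - v2)
      have a2 : |u * v| ≤ s * s := by rw [abs_mul]; gcongr
      have a3 : u * v - 1 = 0 := by
        refine Int.eq_zero_of_abs_lt_dvd ((ZMod.intCast_zmod_eq_zero_iff_dvd _ _).1 a1) ?_
        have b1 : (2 * s ^ 2 : ℤ) < p := by exact_mod_cast hp
        have b2 : (1 : ℤ) ≤ s := by exact_mod_cast hs
        have := abs_le.1 a2
        exact abs_lt.2 ⟨by nlinarith, by nlinarith⟩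
      rcases Int.eq_one_or_neg_one_of_mul_eq_one' (sub_eq_zero.1 a3) with ⟨-, rfl⟩ | ⟨-, rfl⟩
      · exact hab (by simpa using v2)
      · exact e (by push_cast at v2; linear_combination v2)
    · obtain ⟨r, hr, rfl⟩ := mem_map.1 hq
      obtain ⟨r1, r2, r3⟩ := hZ r hr
      exact ⟨r2, r1, (add_comm _ _).trans r3⟩
  have h2 : (4 : ℝ) ^ min m s * (m + s / 2).choose m ≤ 3 ^ min m s * (m + s).choose m := by
    exact_mod_cast choose_half m s
  have h3 : (3 / 4 : ℝ) ^ min m s ≤ Real.exp (-((min m s : ℕ) / 108)) := by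
    rw [show -((min m s : ℕ) / 108 : ℝ) = (min m s : ℕ) * (-1 / 108) by ring, Real.exp_nat_mul]
    exact pow_le_pow_left₀ (by norm_num) (by linarith [Real.add_one_le_exp (-1 / 108)]) _
  calc (Z.card : ℝ) ≤ (m + s / 2).choose m := by exact_mod_cast h1
    _ ≤ (3 / 4 : ℝ) ^ min m s * (m + s).choose m := by
        rw [div_pow, div_mul_eq_mul_div, le_div_iff₀ (by positivity)]; linarith
    _ ≤ _ := by gcongr; linarith

end Pool.Agent.P.MP_6b6f6e_co.Ord
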