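import Pool.Agent.P.MP_6b6f6e_co.Ord.Dep
import Pool.Agent.P.MP_6b6f6e_co.Ord.Pair
import Pool.Agent.P.MP_6b6f6e_co.Ord.Avg

/-!
Random generators in a product of two elementary abelian groups leave an exponentially small
part of the group uncovered.
-/

namespace Pool.Agent.P.MP_6b6f6e_co.Ord

open Finset

theorem red_smul {p m : ℕ} {W : Type} [AddCommGroup W] [Module (ZMod p) W] (y : Fin m → ℕ)
    (a : Fin m → W) : ∑ i, red p y i • a i = ∑ i, y i • a i :=
  sum_congr rfl fun _ _ => Nat.cast_smul_eq_nsmul _ _ _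

theorem dep_simplex {m s p : ℕ} [Fact p.Prime] (hm : 3 ≤ m) (hs : 1 ≤ s) (hp : 2 * s ^ 2 < p)
    (k : ℕ) {x : ℝ} (hx : 0 ≤ x) :
    ∑ T ∈ ((simplex m s).erase 0).powerset,
        dp (fun T => LinearIndepOn (ZMod p) (red p (m := m)) T) k T * x ^ T.card
      ≤ (p : ℝ) ^ k * (3 * Real.exp (-((min m s : ℕ) / 108)) * (m + s).choose m) * x ^ 2
        * Real.exp (((simplex m s).erase 0).card * x) := by
  classical
  have hsp : 2 * s < p := by nlinarith
  have hlt : ∀ y ∈ (simplex m s).erase 0, ∀ i, y i < p := fun y hy i =>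
    (le_of_mem_simplex (mem_of_mem_erase hy) i).trans_lt (by omega)
  have h2 : (2 : ZMod p) ≠ 0 := fun c => by
    have := cast_inj_of_lt (p := p) (x := 2) (y := 0) (by omega) (by omega) (by exact_mod_cast c)
    omega
  have := dep_sum h2 (red p) ((simplex m s).erase 0)
    (fun y hy z hz e => funext fun i => cast_inj_of_lt (hlt y hy i) (hlt z hz i) (congrFun e i))
    (fun y hy e => ne_of_mem_erase hy (funext fun i => cast_inj_of_lt (hlt y hy i)
      (by simp only [Pi.zero_apply]; omega) (by simpa [red] using congrFun e i)))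
    ⌊3 * Real.exp (-((min m s : ℕ) / 108)) * (m + s).choose m⌋₊
    (fun a b z ha hb hab => Nat.le_floor (pair_count hm hs hp ha hb hab z _ fun q hq => by
      simp only [mem_filter, mem_product] at hq
      exact ⟨mem_of_mem_erase hq.1.1, mem_of_mem_erase hq.1.2, hq.2⟩)) k hx
  rw [ZMod.card] at this
  refine this.trans ?_
  gcongr
  exact Nat.floor_le (by positivity)

theorem schmidt {m s p1 p2 : ℕ} [Fact p1.Prime] [Fact p2.Prime] (hm : 3 ≤ m) (hs : 1 ≤ s)
    (h1 : 2 * s ^ 2 < p1) (h12 : p1 ≤ p2) (r1 r2 : ℕ) {k : ℕ} (hk : Even k) {n V : ℝ}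
    (hn : n = Fintype.card ((Fin r1 → ZMod p1) × (Fin r2 → ZMod p2)))
    (hV : V = ((simplex m s).erase 0).card * (1 / n)) :
    ∃ a : Fin m → (Fin r1 → ZMod p1) × (Fin r2 → ZMod p2),
      dens (fun g => ∀ y ∈ simplex m s, ∑ i, y i • a i ≠ g) ≤ Real.exp (-V)
        + Real.exp (4 * V) / 4 ^ k + (1 + k * n) * (2 * ((p2 : ℝ) ^ k
          * (3 * Real.exp (-((min m s : ℕ) / 108)) * (m + s).choose m) * (1 / n) ^ 2
          * Real.exp V)) := by
  classical
  set G := (Fin r1 → ZMod p1) × (Fin r2 → ZMod p2)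
  set S := (simplex m s).erase 0 with hS
  set B := Real.exp (-V) + Real.exp (4 * V) / 4 ^ k + (1 + k * n) * (2 * ((p2 : ℝ) ^ k
    * (3 * Real.exp (-((min m s : ℕ) / 108)) * (m + s).choose m) * (1 / n) ^ 2 * Real.exp V))
    with hB
  have n1 : 1 ≤ n := by rw [hn]; exact_mod_cast Fintype.card_pos
  have n0 : 0 < n := by linarith
  let Ind : Finset (Fin m → ℕ) → Prop := fun T =>
    LinearIndepOn (ZMod p1) (red p1 (m := m)) T ∧ LinearIndepOn (ZMod p2) (red p2 (m := m)) T
  have hD : ∑ T ∈ S.powerset, dp Ind k T * (1 / n) ^ T.card ≤ 2 * ((p2 : ℝ) ^ k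
      * (3 * Real.exp (-((min m s : ℕ) / 108)) * (m + s).choose m) * (1 / n) ^ 2 * Real.exp V) := by
    have d1 := dep_simplex (p := p1) hm hs h1 k (x := 1 / n) (by positivity)
    have d2 := dep_simplex (p := p2) hm hs (h1.trans_le h12) k (x := 1 / n) (by positivity)
    rw [← hS, ← hV] at d1 d2
    have d3 : (p1 : ℝ) ^ k * (3 * Real.exp (-((min m s : ℕ) / 108)) * (m + s).choose m)
        * (1 / n) ^ 2 * Real.exp V ≤ (p2 : ℝ) ^ k
        * (3 * Real.exp (-((min m s : ℕ) / 108)) * (m + s).choose m) * (1 / n) ^ 2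
        * Real.exp V := by gcongr
    refine le_trans ?_ ((add_le_add (d1.trans d3) d2).trans_eq (two_mul _).symm)
    rw [← sum_add_distrib]
    refine sum_le_sum fun T _ => ?_
    rw [← add_mul]
    refine mul_le_mul_of_nonneg_right ?_ (by positivity)
    simp only [dp, Ind]
    by_cases c1 : LinearIndepOn (ZMod p1) (red p1) (T : Set (Fin m → ℕ)) <;>
      by_cases c2 : LinearIndepOn (ZMod p2) (red p2) (T : Set (Fin m → ℕ)) <;>
      by_cases c3 : T.card ≤ k <;> simp [c1, c2, c3]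
  have key : ∀ g : G, ((univ.filter fun a : Fin m → G => ∀ y ∈ S, ¬∑ i, y i • a i = g).card : ℝ)
      ≤ Fintype.card (Fin m → G) * B := fun g => by
    have := bonf S Ind (fun J y h => ⟨h.1.mono (by simp), h.2.mono (by simp)⟩)
      ⟨by simp, by simp⟩ hk (fun (a : Fin m → G) y => ∑ i, y i • a i = g) (x := 1 / n)
      (by positivity) (by rw [div_le_one n0]; exact n1) fun J _ hJ => by
        rw [hn]
        convert fiber_card J (fun w => ?_) g
        obtain ⟨a1, e1⟩ := exists_values _ hJ.1 fun y => (w y).1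
        obtain ⟨a2, e2⟩ := exists_values _ hJ.2 fun y => (w y).2
        refine ⟨fun i => (a1 i, a2 i), fun y => Prod.ext ?_ ?_⟩
        · rw [Prod.fst_sum, ← e1 y, red_smul]; rfl
        · rw [Prod.snd_sum, ← e2 y, red_smul]; rfl
    rw [← hV, div_div_eq_mul_div, div_one] at this
    refine le_trans (le_of_eq (by congr!)) (this.trans
      (mul_le_mul_of_nonneg_left ?_ (Nat.cast_nonneg _)))
    rw [hB]
    gcongr
  have tot : ∑ a : Fin m → G, dens (fun g => ∀ y ∈ S, ¬∑ i, y i • a i = g)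
      ≤ ∑ _a : Fin m → G, B := by
    unfold dens
    rw [← sum_div, ← hn, div_le_iff₀ n0, sum_const, card_univ, nsmul_eq_mul]
    calc _ = ∑ g : G,
          ((univ.filter fun a : Fin m → G => ∀ y ∈ S, ¬∑ i, y i • a i = g).card : ℝ) := by
          simp only [card_filter, Nat.cast_sum]
          rw [sum_comm]
          congr!
      _ ≤ ∑ _g : G, Fintype.card (Fin m → G) * B := sum_le_sum fun g _ => key g
      _ = _ := by rw [sum_const, card_univ, nsmul_eq_mul, ← hn, mul_comm]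
  obtain ⟨a, -, ha⟩ := exists_le_of_sum_le univ_nonempty tot
  exact ⟨a, (dens_mono fun g hg y hy => hg y (mem_of_mem_erase hy)).trans ha⟩

theorem window {p q k X j : ℕ} (hp : 2 ≤ p) (h1 : 2 * p ≤ q) (h2 : q ≤ 4 * p) (hk : 0 < k)
    (hj : p ≤ 2 ^ j) (hX : k * p ^ j < X) :
    ∃ r1 r2, X ≤ k * (p ^ r1 * q ^ r2) ∧ k * (p ^ r1 * q ^ r2) ≤ 4 * X := by
  classical
  have ex : ∃ r, X ≤ k * p ^ (r + 1) := ⟨X, by
    have := Nat.lt_pow_self (n := X + 1) (show 1 < p by omega)
    nlinarith⟩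
  set r := Nat.find ex with hr
  have r1 : X ≤ k * p ^ (r + 1) := Nat.find_spec ex
  have rj : j ≤ r := by
    by_contra c
    have := Nat.mul_le_mul_left k (Nat.pow_le_pow_right (show 0 < p by omega) (show r + 1 ≤ j by omega))
    omega
  have r0 : k * p ^ r < X := by
    rcases Nat.eq_zero_or_pos r with e | e
    · rwa [e, ← Nat.le_zero.1 (e ▸ rj)]
    · have := Nat.find_min ex (show r - 1 < r by omega)
      rwa [Nat.sub_add_cancel e, not_le] at this
  have ex2 : ∃ i, i ≤ r ∧ X ≤ k * (p ^ (r - i) * q ^ i) := ⟨r, le_rfl, by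
    rw [Nat.sub_self, pow_zero, one_mul]
    refine r1.trans (Nat.mul_le_mul_left _ ?_)
    calc p ^ (r + 1) = p * p ^ r := by ring
      _ ≤ 2 ^ r * p ^ r :=
          Nat.mul_le_mul_right _ (hj.trans (Nat.pow_le_pow_right (by norm_num) rj))
      _ ≤ q ^ r := by rw [← mul_pow]; exact Nat.pow_le_pow_left h1 _⟩
  obtain ⟨i1, i2⟩ := Nat.find_spec ex2
  refine ⟨_, _, i2, ?_⟩
  rcases e : Nat.find ex2 with _ | i
  · rw [e] at i2; simp at i2; omega
  · have := Nat.find_min ex2 (show i < Nat.find ex2 by omega)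
    rw [not_and, not_le] at this
    have h3 := this (by omega)
    rw [show r - i = r - (i + 1) + 1 by omega] at h3
    calc k * (p ^ (r - (i + 1)) * q ^ (i + 1)) = k * (p ^ (r - (i + 1)) * q ^ i) * q := by ring
      _ ≤ k * (p ^ (r - (i + 1)) * q ^ i) * (4 * p) := Nat.mul_le_mul_left _ h2
      _ = 4 * (k * (p ^ (r - (i + 1) + 1) * q ^ i)) := by ring
      _ ≤ _ := Nat.mul_le_mul_left _ h3.le

theorem two_pow_le_choose (m s : ℕ) : 2 ^ min m s ≤ (m + s).choose m := by
  induction m with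
  | zero => simp
  | succ m ih =>
    refine Nat.le_of_mul_le_mul_right ?_ (Nat.succ_pos m)
    rw [Nat.succ_eq_add_one, choose_step]
    rcases le_or_gt (m + 1) s with h | h
    · rw [min_eq_left h, pow_succ, mul_assoc]
      rw [min_eq_left (by omega)] at ih
      exact Nat.mul_le_mul ih (by omega)
    · rw [min_eq_right h.le]
      rw [min_eq_right (by omega)] at ih
      exact Nat.mul_le_mul ih (by omega)

theorem choose_le_pow_min (m s : ℕ) : (m + s).choose m ≤ (m + s) ^ min m s := by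
  rcases le_total m s with h | h
  · rw [min_eq_left h]; exact Nat.choose_le_pow _ _
  · rw [min_eq_right h, Nat.choose_symm_add]; exact Nat.choose_le_pow _ _

theorem error_small {k L K n N V P : ℝ} {j : ℕ} (hj : k = j) (hk : 64 ≤ k) (hL : 1 ≤ L)
    (hK : 1620 * k * L ≤ K) (hn : 1 ≤ n) (hN0 : 0 ≤ N) (hN : N * (1 / n) ≤ 2 * V)
    (hV1 : k / 16 ≤ V) (hV2 : V ≤ k / 4) (hP0 : 0 ≤ P) (hP : P ≤ Real.exp (6 * L + 4)) :
    Real.exp (-V) + Real.exp (4 * V) / 4 ^ j + (1 + j * n) * (2 * (P ^ j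
      * (3 * Real.exp (-(K / 108)) * N) * (1 / n) ^ 2 * Real.exp V)) ≤ Real.exp (-(k / 32)) := by
  have n0 : 0 < n := by linarith
  have e1 : Real.exp (-V) ≤ Real.exp (-(k / 16)) := Real.exp_le_exp.2 (by linarith)
  have e2 : Real.exp (4 * V) / 4 ^ j ≤ Real.exp (-(k / 16)) := by
    have a1 : Real.exp (17 / 16) ≤ 4 := by
      have := exp_half_le (x := 1 / 8) (by norm_num) (by norm_num)
      rw [show (17 / 16 : ℝ) = 1 + 1 / 8 / 2 by norm_num, Real.exp_add]
      have h3 := Real.exp_one_lt_three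
      have h4 := Real.exp_pos (1 / 8 / 2)
      nlinarith
    rw [div_le_iff₀ (by positivity)]
    calc Real.exp (4 * V) ≤ Real.exp (-(k / 16) + j * (17 / 16)) :=
          Real.exp_le_exp.2 (by rw [← hj]; linarith)
      _ ≤ _ := by rw [Real.exp_add, Real.exp_nat_mul]; gcongr
  have e3 : (1 + j * n) * (2 * (P ^ j * (3 * Real.exp (-(K / 108)) * N) * (1 / n) ^ 2
      * Real.exp V)) ≤ Real.exp (-(k / 16)) := by
    have a0 := Real.add_one_le_exp k
    have a1 : (1 + j * n) * (1 / n) ≤ Real.exp k := by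
      rw [← hj, mul_one_div, div_le_iff₀ n0]; nlinarith
    have a2 : N * (1 / n) ≤ Real.exp k := by linarith
    have a3 : P ^ j ≤ Real.exp (k * (6 * L + 4)) := by
      rw [hj, Real.exp_nat_mul]; gcongr
    have a4 : Real.exp V ≤ Real.exp k := Real.exp_le_exp.2 (by linarith)
    calc _ = 6 * ((1 + j * n) * (1 / n)) * (N * (1 / n)) * Real.exp V * P ^ j
          * Real.exp (-(K / 108)) := by ring
      _ ≤ Real.exp k * Real.exp k * Real.exp k * Real.exp k * Real.exp (k * (6 * L + 4))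
          * Real.exp (-(K / 108)) := by
          gcongr
          linarith
      _ ≤ _ := by
          simp only [← Real.exp_add]
          refine Real.exp_le_exp.2 ?_
          nlinarith
  have e4 : Real.exp (-(k / 32)) = Real.exp (k / 32) * Real.exp (-(k / 16)) := by
    rw [← Real.exp_add]; congr 1; ring
  have e5 := Real.add_one_le_exp (k / 32)
  have e6 := Real.exp_pos (-(k / 16))
  nlinarith

theorem two_pow_le_exp (j : ℕ) : (2 : ℝ) ^ j ≤ Real.exp j := by
  rw [← Real.exp_one_pow]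
  exact pow_le_pow_left₀ (by norm_num) (by linarith [Real.add_one_le_exp 1]) _

/-- The random stage followed by repeated squaring. -/
theorem stage {m s L t : ℕ} (hL : 1 ≤ L) (hm : m < 2 ^ (3 * L)) (hs : s < 2 ^ (3 * L))
    (hK : 2 ^ 18 * L ^ 2 ≤ min m s) (ht : 2 ^ 19 * L ^ 2 ≤ 2 ^ t) :
    ∃ (G : Type) (_ : AddCommGroup G) (_ : Finite G) (a : Fin m → G) (h : Fin t → G),
      (∀ q, 0 < q → q ≤ s → (Nat.card G).Coprime q) ∧
      (m + s).choose m ≤ min m s * Nat.card G ∧
      ∀ g : G, ∃ (I : Finset (Fin t)) (y : Fin m → ℕ), ∑ i, y i ≤ s ∧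
        ∑ i, y i • a i = g - ∑ i ∈ I, h i := by
  set K := min m s with hKd
  set N := (m + s).choose m with hN
  have LL : L ≤ L ^ 2 := Nat.le_self_pow two_ne_zero L
  have Km : K ≤ m := min_le_left _ _
  have Ks : K ≤ s := min_le_right _ _
  have s1 : 1 ≤ s := by omega
  obtain ⟨p1, hp1, a1, a2⟩ := Nat.exists_prime_lt_and_le_two_mul (2 * s ^ 2) (by positivity)
  obtain ⟨p2, hp2, b1, b2⟩ := Nat.exists_prime_lt_and_le_two_mul (2 * p1)
    (by have := hp1.pos; omega)
  have := Fact.mk hp1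
  have := Fact.mk hp2
  have a3 : p1 ≤ 2 ^ (6 * L + 2) := by
    have : s ^ 2 ≤ (2 ^ (3 * L)) ^ 2 := Nat.pow_le_pow_left hs.le _
    rw [← pow_mul, show 3 * L * 2 = 6 * L by ring] at this
    rw [pow_add]; omega
  set k := 2 * (K / (3240 * L)) with hk
  have k1 : 3240 * L * (K / (3240 * L)) ≤ K := Nat.mul_div_le _ _
  have k2 : K < 3240 * L * (K / (3240 * L) + 1) := Nat.lt_mul_div_succ _ (by omega)
  have k3 : 32 ≤ K / (3240 * L) := (Nat.le_div_iff_mul_le (by omega)).2 (by omega)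
  have k4 : 1620 * k * L ≤ K := by rw [hk]; linarith
  have k5 : K ≤ 3240 * L * k := by rw [hk]; nlinarith
  have k6 : k ≤ K := by nlinarith
  have N1 : 2 ^ K ≤ N := two_pow_le_choose m s
  have N2 : 2 ≤ N := le_trans (Nat.pow_le_pow_right (n := 2) (by norm_num) (show 1 ≤ K by omega)) N1
  have hS : ((simplex m s).erase 0).card = N - 1 := by
    rw [card_erase_of_mem (mem_simplex.2 (by simp)), card_simplex]
  obtain ⟨r1, r2, w1, w2⟩ := window (k := k) (X := 4 * (N - 1)) hp1.two_le b1.le (by omega)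
    (by omega) a3 (by
      calc k * p1 ^ (6 * L + 2) ≤ 2 ^ (3 * L) * (2 ^ (6 * L + 2)) ^ (6 * L + 2) :=
            Nat.mul_le_mul (by omega) (Nat.pow_le_pow_left a3 _)
        _ ≤ 2 ^ K := by
            rw [← pow_mul, ← pow_add]
            exact Nat.pow_le_pow_right (by norm_num) (by nlinarith)
        _ < _ := by omega)
  have hc : Fintype.card ((Fin r1 → ZMod p1) × (Fin r2 → ZMod p2)) = p1 ^ r1 * p2 ^ r2 := by
    simp [ZMod.card]
  set n := p1 ^ r1 * p2 ^ r2 with hn
  have n1 : 1 ≤ n := by rw [← hc]; exact Fintype.card_pos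
  have n1' : (1 : ℝ) ≤ n := by exact_mod_cast n1
  have n0 : (0 : ℝ) < n := by linarith
  obtain ⟨a, ha⟩ := schmidt (m := m) (by omega) s1 a1 (show p1 ≤ p2 by omega) r1 r2
    (k := k) (even_two_mul _) (n := n) (by rw [hc]) rfl
  rw [hS] at ha
  have w1' : (4 * (N - 1 : ℕ) : ℝ) ≤ k * n := by exact_mod_cast w1
  have w2' : (k * n : ℝ) ≤ 4 * (4 * (N - 1 : ℕ)) := by exact_mod_cast w2
  have N3 : (N : ℝ) ≤ 2 * (N - 1 : ℕ) := by exact_mod_cast (show N ≤ 2 * (N - 1) by omega)
  replace ha := ha.trans (error_small (k := k) (L := L) rfl (by exact_mod_cast (by omega : 64 ≤ k))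
    (by exact_mod_cast hL) (by exact_mod_cast k4) n1' (Nat.cast_nonneg _)
    (by rw [← mul_assoc]; gcongr)
    (by rw [mul_one_div, div_le_div_iff₀ (by norm_num) n0]; linarith)
    (by rw [mul_one_div, div_le_div_iff₀ n0 (by norm_num)]; linarith) (Nat.cast_nonneg _)
    (by
      have c1 : p2 ≤ 2 ^ (6 * L + 4) := by rw [pow_add] at a3 ⊢; omega
      have c2 : (p2 : ℝ) ≤ 2 ^ (6 * L + 4) := by exact_mod_cast c1
      exact c2.trans (by exact_mod_cast two_pow_le_exp (6 * L + 4))))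
  have nN : n < 2 ^ (4 * L * K) := by
    have c1 : n < N := by nlinarith [Nat.sub_le N 1]
    have c2 : m + s ≤ 2 ^ (4 * L) := by
      have : 2 ^ (3 * L + 1) ≤ 2 ^ (4 * L) := Nat.pow_le_pow_right (by norm_num) (by omega)
      rw [pow_succ] at this
      omega
    rw [pow_mul]
    exact c1.trans_le ((choose_le_pow_min m s).trans (Nat.pow_le_pow_left c2 _))
  obtain ⟨h, hh⟩ := rogers (fun g => ∀ y ∈ simplex m s, ∑ i, y i • a i ≠ g) t (by
    rw [hc]
    have c1 : (n : ℝ) < Real.exp (4 * L * K : ℕ) :=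
      lt_of_lt_of_le (by exact_mod_cast nN) (two_pow_le_exp _)
    have c2 : 32 * (4 * L * K) ≤ 2 ^ t * k := by
      calc 32 * (4 * L * K) = 128 * L * K := by ring
        _ ≤ 128 * L * (3240 * L * k) := Nat.mul_le_mul_left _ k5
        _ = 414720 * L ^ 2 * k := by ring
        _ ≤ _ := Nat.mul_le_mul_right k (by omega)
    have c3 : (32 * (4 * L * K : ℕ) : ℝ) ≤ (2 ^ t : ℕ) * k := by exact_mod_cast c2
    calc _ ≤ Real.exp (-(k / 32)) ^ 2 ^ t * n := by gcongr; exact dens_nonneg _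
      _ < Real.exp (-(k / 32)) ^ 2 ^ t * Real.exp (4 * L * K : ℕ) := by gcongr
      _ ≤ 1 := by
          rw [← Real.exp_nat_mul, ← Real.exp_add, Real.exp_le_one_iff]
          linarith)
  refine ⟨_, inferInstance, inferInstance, a, h, fun q q0 q1 => ?_, ?_, fun g => ?_⟩
  · have c1 : s < p1 := by nlinarith
    rw [Nat.card_eq_fintype_card, hc, hn]
    exact Nat.Coprime.mul_left
      (Nat.Coprime.pow_left _ (Nat.coprime_of_lt_prime q0.ne' (by omega) hp1))
      (Nat.Coprime.pow_left _ (Nat.coprime_of_lt_prime q0.ne' (by omega) hp2))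
  · rw [Nat.card_eq_fintype_card, hc]
    have := Nat.mul_le_mul_right n k6
    omega
  · obtain ⟨I, hI⟩ := hh g
    push Not at hI
    obtain ⟨y, y1, y2⟩ := hI
    exact ⟨I, y, mem_simplex.1 y1, y2⟩

end Pool.Agent.P.MP_6b6f6e_co.Ord
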