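import Pool.Agent.P.MP_6b6f6e_co.Ord.Bonf

/-!
Counting linearly dependent subsets over a finite field, and equidistribution of the values of a
random homomorphism on independent sets.
-/

namespace Pool.Agent.P.MP_6b6f6e_co.Ord

open Finset

section Dep

variable {α K W : Type} [DecidableEq α] [Field K] [AddCommGroup W] [Module K W]

theorem exists_pair (h2 : (2 : K) ≠ 0) (f : α → W) (T : Finset α) (hinj : Set.InjOn f T)
    (h0 : ∀ y ∈ T, f y ≠ 0) (hT : ¬LinearIndepOn K f T) :
    ∃ c : α → K, ∑ y ∈ T, c y • f y = 0 ∧ ∃ u ∈ T, ∃ v ∈ T, u ≠ v ∧ c u ≠ 0 ∧ c v ≠ 0 ∧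
      c u + c v ≠ 0 := by
  obtain ⟨c, hc, u, hu, hcu⟩ := not_linearIndepOn_finset_iff.1 hT
  refine ⟨c, hc, ?_⟩
  by_contra hn
  push Not at hn
  by_cases h1 : ∀ v ∈ T, v ≠ u → c v = 0
  · rw [sum_eq_single_of_mem u hu fun v hv e => by rw [h1 v hv e, zero_smul]] at hc
    exact h0 u hu ((smul_eq_zero.1 hc).resolve_left hcu)
  push Not at h1
  obtain ⟨v, hv, huv, hcv⟩ := h1
  have e1 := hn u hu v hv huv.symm hcu hcv
  have h3 : ∀ w ∈ T, w ≠ u ∧ w ≠ v → c w • f w = 0 := fun w hw e => by
    by_contra hw0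
    have hcw : c w ≠ 0 := fun z => hw0 (by rw [z, zero_smul])
    have e2 := hn u hu w hw e.1.symm hcu hcw
    have e3 := hn v hv w hw e.2.symm hcv hcw
    exact mul_ne_zero h2 hcu (by linear_combination e1 + e2 - e3)
  rw [sum_eq_add_of_mem u v hu hv huv.symm h3, eq_neg_of_add_eq_zero_right e1, neg_smul,
    ← sub_eq_add_neg, ← smul_sub, smul_eq_zero, sub_eq_zero] at hc
  exact huv (hinj hu hv (hc.resolve_left hcu)).symm

open Classical in
theorem dep_sum [Fintype K] (h2 : (2 : K) ≠ 0) (f : α → W) (S : Finset α) (hinj : Set.InjOn f S)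
    (h0 : ∀ y ∈ S, f y ≠ 0) (H : ℕ)
    (hH : ∀ (a b : K) (z : W), a ≠ 0 → b ≠ 0 → a + b ≠ 0 →
      ((S ×ˢ S).filter fun p => a • f p.1 + b • f p.2 = z).card ≤ H)
    (k : ℕ) {x : ℝ} (hx : 0 ≤ x) :
    ∑ T ∈ S.powerset, dp (fun T => LinearIndepOn K f T) k T * x ^ T.card
      ≤ (Fintype.card K : ℝ) ^ k * H * x ^ 2 * Real.exp (S.card * x) := by
  let B : Finset α → Finset (Finset α) := fun R =>
    (univ.filter fun c : (R → K) × K × K => c.2.1 ≠ 0 ∧ c.2.2 ≠ 0 ∧ c.2.1 + c.2.2 ≠ 0).biUnion
      fun c => ((S ×ˢ S).filter fun p =>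
        c.2.1 • f p.1 + c.2.2 • f p.2 = -∑ y : R, c.1 y • f y).image
          fun p => insert p.1 (insert p.2 R)
  have hB : ∀ R, (B R).card ≤ Fintype.card K ^ (R.card + 2) * H := fun R => by
    refine (card_biUnion_le_card_mul _ _ H fun c hc => ?_).trans (Nat.mul_le_mul_right _ ?_)
    · obtain ⟨h1, h2, h3⟩ := (mem_filter.1 hc).2
      exact card_image_le.trans (hH _ _ _ h1 h2 h3)
    · refine (card_le_univ _).trans (le_of_eq ?_)
      simp [pow_succ, mul_assoc]
  set D := S.powerset.filter fun T => ¬LinearIndepOn K f (T : Finset α) ∧ T.card ≤ k with hD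
  have hr : ∀ T : Finset α, ∃ R : Finset α, T ∈ D →
      R ∈ S.powerset ∧ T.card = R.card + 2 ∧ T ∈ B R := fun T => by
    by_cases hT : T ∈ D
    swap
    · exact ⟨∅, fun c => absurd c hT⟩
    obtain ⟨h1, h3, -⟩ := mem_filter.1 hT
    have h1 := mem_powerset.1 h1
    obtain ⟨c, hc, u, hu, v, hv, huv, cu, cv, cuv⟩ :=
      exists_pair h2 f T (hinj.mono h1) (fun y hy => h0 y (h1 hy)) h3
    have hv' : v ∈ T.erase u := mem_erase.2 ⟨huv.symm, hv⟩
    have e : insert u (insert v ((T.erase u).erase v)) = T := by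
      rw [insert_erase hv', insert_erase hu]
    refine ⟨(T.erase u).erase v, fun _ => ⟨mem_powerset.2
      (((erase_subset _ _).trans (erase_subset _ _)).trans h1), ?_, ?_⟩⟩
    · have := card_erase_add_one hu
      have := card_erase_add_one hv'
      omega
    · refine mem_biUnion.2 ⟨(fun y => c y, c u, c v), mem_filter.2 ⟨mem_univ _, cu, cv, cuv⟩,
        mem_image.2 ⟨(u, v), mem_filter.2 ⟨mem_product.2 ⟨h1 hu, h1 hv⟩, ?_⟩, e⟩⟩
      rw [← add_sum_erase _ _ hu, ← add_sum_erase _ _ hv', ← add_assoc] at hc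
      rw [sum_coe_sort ((T.erase u).erase v) fun y => c y • f y]
      exact eq_neg_of_add_eq_zero_left hc
  choose r hr using hr
  have hK : (1 : ℝ) ≤ Fintype.card K := by exact_mod_cast Fintype.card_pos
  calc ∑ T ∈ S.powerset, dp (fun T => LinearIndepOn K f T) k T * x ^ T.card
      = ∑ T ∈ D, x ^ T.card := by
        rw [hD, sum_filter]
        refine sum_congr rfl fun T _ => ?_
        rw [dp]; split_ifs <;> simp
    _ = ∑ R ∈ S.powerset, ∑ T ∈ D with r T = R, x ^ T.card :=
        (sum_fiberwise_of_maps_to (fun T hT => (hr T hT).1) _).symm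
    _ ≤ ∑ R ∈ S.powerset, (Fintype.card K : ℝ) ^ k * H * x ^ 2 * x ^ R.card := by
        refine sum_le_sum fun R _ => ?_
        rcases (D.filter fun T => r T = R).eq_empty_or_nonempty with e | ⟨T0, hT0⟩
        · rw [e, sum_empty]; positivity
        have a0 : R.card + 2 ≤ k := by
          obtain ⟨a1, a2⟩ := mem_filter.1 hT0
          rw [← a2, ← (hr T0 a1).2.1]
          exact (mem_filter.1 a1).2.2
        rw [sum_congr rfl (g := fun _ => x ^ (R.card + 2)) fun T hT => by
          obtain ⟨a1, a2⟩ := mem_filter.1 hT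
          rw [(hr T a1).2.1, a2], sum_const, nsmul_eq_mul]
        have a1 : (D.filter fun T => r T = R).card ≤ Fintype.card K ^ k * H := by
          refine (card_le_card fun T hT => ?_).trans ((hB R).trans
            (Nat.mul_le_mul_right _ (Nat.pow_le_pow_right Fintype.card_pos a0)))
          obtain ⟨a1, a2⟩ := mem_filter.1 hT
          exact a2 ▸ (hr T a1).2.2
        have a2 : ((D.filter fun T => r T = R).card : ℝ) ≤ (Fintype.card K : ℝ) ^ k * H := by
          exact_mod_cast a1
        calc _ ≤ (Fintype.card K : ℝ) ^ k * H * x ^ (R.card + 2) := by gcongr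
          _ = _ := by ring
    _ ≤ _ := by
        rw [← mul_sum, sum_pow_card, Real.exp_nat_mul]
        gcongr
        linarith [Real.add_one_le_exp x]

theorem exists_values {ι : Type} {m : ℕ} (v : ι → Fin m → K) (hv : LinearIndependent K v)
    (w : ι → W) : ∃ a : Fin m → W, ∀ j, ∑ i, v j i • a i = w j := by
  classical
  obtain ⟨g, hg⟩ := (Finsupp.linearCombination K v).exists_leftInverse_of_injective
    (linearIndependent_iff_ker.1 hv)
  refine ⟨fun i => Finsupp.linearCombination K w (g (Pi.single i 1)), fun j => ?_⟩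
  simp only [← map_smul, ← map_sum]
  have e : ∑ i, v j i • (Pi.single i 1 : Fin m → K) = v j := by
    funext i; simp [Finset.sum_apply, Pi.single_apply]
  have := LinearMap.congr_fun hg (Finsupp.single j 1)
  simp only [LinearMap.comp_apply, Finsupp.linearCombination_single, one_smul,
    LinearMap.id_apply] at this
  rw [e, this, Finsupp.linearCombination_single, one_smul]

end Dep

open Classical in
theorem fiber_card {G : Type} [AddCommGroup G] [Fintype G] {m : ℕ} (J : Finset (Fin m → ℕ))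
    (hJ : ∀ w : J → G, ∃ a : Fin m → G, ∀ y : J, ∑ i, y.1 i • a i = w y) (g : G) :
    ((univ.filter fun a : Fin m → G => ∀ y ∈ J, ∑ i, y i • a i = g).card : ℝ)
      = Fintype.card (Fin m → G) * (1 / (Fintype.card G : ℝ)) ^ J.card := by
  let Φ : (Fin m → G) →+ (J → G) :=
    { toFun := fun a y => ∑ i, y.1 i • a i
      map_zero' := by funext y; simp
      map_add' := fun a b => by funext y; simp [sum_add_distrib] }
  have hs : ∀ w, w ∈ Set.range Φ := fun w => (hJ w).imp fun a ha => funext ha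
  have h1 := card_eq_sum_card_fiberwise (f := Φ) (s := univ) (t := univ) fun _ _ => mem_univ _
  rw [sum_congr rfl fun w _ => AddMonoidHom.card_fiber_eq_of_mem_range Φ (hs w) (hs fun _ => g),
    sum_const, card_univ, card_univ, smul_eq_mul, Fintype.card_fun (α := J), Fintype.card_coe] at h1
  have h2 : (univ.filter fun a : Fin m → G => ∀ y ∈ J, ∑ i, y i • a i = g)
      = univ.filter fun a => Φ a = fun _ => g := by
    refine filter_congr fun a _ => ⟨fun h => funext fun y => h y.1 y.2, fun h y hy => ?_⟩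
    exact congrFun h ⟨y, hy⟩
  have hn : (0 : ℝ) < Fintype.card G := by exact_mod_cast Fintype.card_pos
  rw [h1, h2, one_div, inv_pow]
  push_cast
  field_simp

end Pool.Agent.P.MP_6b6f6e_co.Ord
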