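import Pool.Agent.P.MP_6b6f6e_co.Ord.Cases

/-!
The uniform lower bound: assembly of the ranges of parameters.
-/

namespace Pool.Agent.P.MP_6b6f6e_co.Ord

open Finset

theorem big {K : ℕ} (h : 2 ^ 40 ≤ K) : 2 ^ 22 * (Nat.log 2 K + 1) ^ 2 ≤ K := by
  have h1 : 40 ≤ Nat.log 2 K := Nat.le_log_of_pow_le (by norm_num) h
  refine le_trans ?_ (Nat.pow_log_le_self 2 (show K ≠ 0 by omega))
  generalize Nat.log 2 K = l at h1
  induction l, h1 using Nat.le_induction with
  | base => norm_num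
  | succ l hl ih => rw [pow_succ 2 l]; nlinarith

theorem large {m s : ℕ} (h : 2 ^ 40 ≤ min m s) :
    Good (3 * ((2 ^ 20 * (Nat.log 2 (min m s) + 1 : ℕ) ^ 2) ^ 8 * (min m s : ℕ))) m s := by
  have hb := big h
  have hl : min m s < 2 ^ (Nat.log 2 (min m s) + 1) := Nat.lt_pow_succ_log_self (by norm_num) _
  generalize Nat.log 2 (min m s) + 1 = L at hb hl
  have L1 : 1 ≤ L := by
    by_contra c
    rw [show L = 0 by omega] at hl
    omega
  have cube : ∀ {a b : ℕ}, 3 ≤ a → a < 2 ^ L → b ≤ 3 * a ^ 2 → b < 2 ^ (3 * L) := by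
    intro a b h1 h2 h3
    rw [mul_comm, pow_mul]
    exact lt_of_le_of_lt (by nlinarith) (Nat.pow_lt_pow_left h2 (by norm_num))
  have three : ∀ {D : ℝ}, 0 ≤ D → D ≤ 3 * D := fun h => by linarith
  rcases le_total m s with c | c
  · have mm : m ≤ m ^ 2 := Nat.le_self_pow two_ne_zero m
    have H : ∀ u, m ≤ u → u ≤ 3 * m ^ 2 → Good ((2 ^ 20 * L ^ 2) ^ 8 * (min m s : ℕ)) m u := by
      intro u h1 h2
      rw [min_eq_left c] at *
      have := mid (m := m) (s := u) L1 (cube (by omega) hl (by omega)) (cube (by omega) hl h2)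
        (by rwa [min_eq_left h1])
      rwa [min_eq_left h1] at this
    rcases le_total s (m ^ 2) with d | d
    · exact (H s c (by omega)).mono (three (by positivity))
    · exact tall (by omega) d fun u h1 h2 => H u (by omega) h2
  · have ss : s ≤ s ^ 2 := Nat.le_self_pow two_ne_zero s
    rcases le_total m (s ^ 2) with d | d
    · refine (mid L1 ?_ ?_ hb).mono (three (by positivity))
      · rw [min_eq_right c] at *; exact cube (by omega) hl (by omega)
      · rw [min_eq_right c] at *; exact cube (by omega) hl (by omega)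
    · rw [min_eq_right c] at *
      refine ((wide L1 (by omega) hl d).mono ?_).mono (three (by positivity))
      have a1 : (1 : ℝ) ≤ L := by exact_mod_cast L1
      have a2 : (1024 : ℝ) * L ≤ 2 ^ 20 * L ^ 2 := by nlinarith
      gcongr
      exact a2.trans (le_self_pow₀ (by nlinarith) (by norm_num))

theorem log_le_sq {K : ℕ} (hK : 1 ≤ K) : ((Nat.log 2 K + 1 : ℕ) : ℝ) ≤ (2 + Real.log K) ^ 2 := by
  have l0 := Real.log_nonneg (show (1 : ℝ) ≤ K by exact_mod_cast hK)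
  have b1 : (2 : ℝ) ^ Nat.log 2 K ≤ K := by
    exact_mod_cast Nat.pow_log_le_self 2 (show K ≠ 0 by omega)
  have b2 := Real.log_le_log (by positivity) b1
  rw [Real.log_pow] at b2
  have b3 := Real.log_two_gt_d9
  have b4 : (0 : ℝ) ≤ Nat.log 2 K := Nat.cast_nonneg _
  push_cast
  nlinarith

theorem const_le {T L K : ℝ} (hT : 2 ≤ T) (hL0 : 0 ≤ L) (hL : L ≤ T ^ 2) (hK : 0 ≤ K) :
    3 * ((2 ^ 20 * L ^ 2) ^ 8 * K) ≤ K * T ^ 194 := by
  calc _ ≤ T ^ 2 * ((T ^ 20 * (T ^ 2) ^ 2) ^ 8 * K) := by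
        gcongr
        nlinarith
    _ = _ := by ring

theorem uniform : ∃ C : ℕ, ∀ m s : ℕ, 1 ≤ m → 1 ≤ s →
    Good ((min m s : ℕ) * (2 + Real.log (min m s : ℕ)) ^ C) m s := by
  obtain ⟨K, hK⟩ : ∃ K : ℕ, ∀ m s : ℕ, K ≤ min m s → Good (3 * ((2 ^ 20
    * (Nat.log 2 (min m s) + 1 : ℕ) ^ 2) ^ 8 * (min m s : ℕ))) m s := ⟨_, fun _ _ => large⟩
  obtain ⟨c, hc⟩ : ∃ c : ℕ, ∀ m s : ℕ, 1 ≤ m → 1 ≤ s → min m s ≤ K → Good (2 ^ c) m s :=
    ⟨(5 * K) ^ K, fun _ _ h1 h2 h3 => (small h1 h2 h3).mono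
      (by exact_mod_cast Nat.lt_two_pow_self.le)⟩
  refine ⟨c + 194, fun m s hm hs => ?_⟩
  have k1 : (1 : ℝ) ≤ (min m s : ℕ) := by exact_mod_cast le_min hm hs
  have l0 := Real.log_nonneg k1
  have a1 := log_le_sq (le_min hm hs)
  have T2 : 2 ≤ 2 + Real.log (min m s : ℕ) := by linarith
  generalize 2 + Real.log (min m s : ℕ) = T at *
  have T1 : 1 ≤ T := by linarith
  rcases le_total (min m s) K with h | h
  · refine (hc m s hm hs h).mono ?_
    calc (2 : ℝ) ^ c ≤ T ^ c := by gcongr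
      _ ≤ T ^ (c + 194) := pow_le_pow_right₀ T1 (Nat.le_add_right _ _)
      _ ≤ _ := le_mul_of_one_le_left (by positivity) k1
  · exact (hK m s h).mono ((const_le T2 (Nat.cast_nonneg _) a1 (Nat.cast_nonneg _)).trans
      (mul_le_mul_of_nonneg_left (pow_le_pow_right₀ T1 (Nat.le_add_left _ _)) (Nat.cast_nonneg _)))

end Pool.Agent.P.MP_6b6f6e_co.Ord
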