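import Pool.Agent.P.MP_6b6f6e_co.Ord.Base

/-!
The upper bound: every element has many, or well spread, representations at a higher level.
-/

namespace Pool.Agent.P.MP_6b6f6e_co.Ord

open Finset

/-- Least coordinate. -/
def mn {m : ℕ} (y : Fin (m + 1) → ℕ) : ℕ := univ.inf' univ_nonempty y

theorem mn_le {m : ℕ} (y : Fin (m + 1) → ℕ) (i : Fin (m + 1)) : mn y ≤ y i :=
  inf'_le _ (mem_univ i)

theorem mn_eq {m : ℕ} (y : Fin (m + 1) → ℕ) : ∃ i, mn y = y i := by
  obtain ⟨i, -, h⟩ := exists_mem_eq_inf' (univ_nonempty (α := Fin (m + 1))) y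
  exact ⟨i, h⟩

/-- Vectors of a given total. -/
abbrev level (m t : ℕ) : Finset (Fin (m + 1) → ℕ) := piAntidiag univ t

theorem mem_level {m t : ℕ} {y : Fin (m + 1) → ℕ} : y ∈ level m t ↔ ∑ i, y i = t := by
  simp [level]

open Classical in
theorem rep {G : Type} [AddCommGroup G] {m s : ℕ} (a : Fin (m + 1) → G)
    (h : ∀ g : G, ∃ y : Fin (m + 1) → ℕ, ∑ i, y i = s ∧ ∑ i, y i • a i = g) (u : ℕ) (g : G) :
    u + 1 ≤ ∑ y ∈ level m (s + u) with ∑ i, y i • a i = g, (mn y + 1) := by
  by_contra hc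
  set R := (level m (s + u)).filter fun y => ∑ i, y i • a i = g with hR
  choose idx hidx using mn_eq (m := m)
  set l0 : Fin (m + 1) → ℕ := fun i => ∑ y ∈ R with idx y = i, (mn y + 1) with hl0
  have hsum : ∑ i, l0 i = ∑ y ∈ R, (mn y + 1) :=
    sum_fiberwise_of_maps_to (fun y _ => mem_univ (idx y)) _
  set l : Fin (m + 1) → ℕ := l0 + Pi.single 0 (u - ∑ i, l0 i) with hl
  have hlu : ∑ i, l i = u := by
    simp only [hl, Pi.add_apply, sum_add_distrib, sum_pi_single', mem_univ, if_true]
    omega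
  obtain ⟨v, hv1, hv2⟩ := h (g - ∑ i, l i • a i)
  have hmem : v + l ∈ R := by
    refine mem_filter.2 ⟨mem_level.2 ?_, ?_⟩
    · simp only [Pi.add_apply, sum_add_distrib, hv1, hlu]
    · simp only [Pi.add_apply, add_smul, sum_add_distrib, hv2, sub_add_cancel]
  have h1 : mn (v + l) + 1 ≤ l0 (idx (v + l)) :=
    single_le_sum (f := fun y => mn y + 1) (fun _ _ => Nat.zero_le _) (mem_filter.2 ⟨hmem, rfl⟩)
  have h2 := hidx (v + l)
  have h3 : l0 (idx (v + l)) ≤ (v + l) (idx (v + l)) := by
    simp only [hl, Pi.add_apply]; omega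
  omega

theorem choose_add_le (m t j : ℕ) :
    (m + t).choose (m + 1) + j * (m + t).choose m ≤ (m + t + j).choose (m + 1) := by
  induction j with
  | zero => simp
  | succ j ih =>
    have h1 : (m + t).choose m ≤ (m + t + j).choose m := Nat.choose_le_choose _ (by omega)
    rw [← add_assoc, Nat.choose_succ_succ' (m + t + j) m]
    linarith

theorem sum_mn (m t : ℕ) : (m + 1) * ∑ y ∈ level m t, mn y ≤ (m + t).choose (m + 1) := by
  induction t using Nat.strong_induction_on with
  | _ t ih =>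
    have key : ∀ y ∈ level m t, (m + 1) * mn y ≤ t := fun y hy => by
      rw [← mem_level.1 hy]
      have := card_nsmul_le_sum (univ : Finset (Fin (m + 1))) y (mn y) fun i _ => mn_le y i
      simpa using this
    rcases lt_or_ge t (m + 1) with ht | ht
    · rw [sum_eq_zero fun y hy => ?_]
      · simp
      · have := key y hy
        by_contra h0
        have : (m + 1) * 1 ≤ (m + 1) * mn y := Nat.mul_le_mul_left _ (by omega)
        omega
    · obtain ⟨r, rfl⟩ : ∃ r, t = r + (m + 1) := ⟨t - (m + 1), by omega⟩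
      have h1 : ∑ y ∈ level m (r + (m + 1)), mn y ≤ ∑ z ∈ level m r, (mn z + 1) := by
        rw [← sum_filter_ne_zero]
        refine sum_le_of_injOn (fun y i => y i - 1) (fun y hy z hz e => ?_) (fun y hy => ?_)
          (fun y hy => ?_) fun _ _ => Nat.zero_le _
        · funext i
          have a1 := (mem_filter.1 hy).2
          have a2 := (mem_filter.1 hz).2
          have a3 := mn_le y i
          have a4 := mn_le z i
          have a5 := congrFun e i
          simp only at a5
          omega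
        · have a1 := (mem_filter.1 hy).2
          have a2 := mem_level.1 (mem_filter.1 hy).1
          have a3 : ∑ i, y i = ∑ i, (y i - 1 + 1) :=
            sum_congr rfl fun i _ => by have := mn_le y i; omega
          rw [sum_add_distrib] at a3
          simp only [sum_const, card_univ, Fintype.card_fin, smul_eq_mul, mul_one] at a3
          exact mem_level.2 (by omega)
        · obtain ⟨i, hi⟩ := mn_eq fun i => y i - 1
          have := mn_le y i
          omega
      have h2 := ih r (by omega)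
      have h3 := choose_add_le m r (m + 1)
      rw [sum_add_distrib, sum_const, card_level, smul_eq_mul, mul_one] at h1
      rw [← add_assoc m r]
      nlinarith

/-- The averaged inequality. -/
theorem upper_level {G : Type} [AddCommGroup G] [Finite G] {m s : ℕ} (a : Fin (m + 1) → G)
    (h : ∀ g : G, ∃ y : Fin (m + 1) → ℕ, ∑ i, y i = s ∧ ∑ i, y i • a i = g) (u : ℕ) :
    (u + 1) * Nat.card G * (m + 1) ^ 2 ≤ ((m + 1) ^ 2 + (s + u)) * (m + (s + u)).choose m := by
  classical
  have := Fintype.ofFinite G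
  have h1 : (u + 1) * Nat.card G ≤ ∑ y ∈ level m (s + u), (mn y + 1) := by
    rw [← sum_fiberwise_of_maps_to (g := fun y => ∑ i, y i • a i) (fun y _ => mem_univ _)]
    have := card_nsmul_le_sum (univ : Finset G) _ (u + 1) fun g _ => rep a h u g
    rw [card_univ, smul_eq_mul, mul_comm] at this
    rw [Nat.card_eq_fintype_card]
    convert this
  rw [sum_add_distrib, sum_const, card_level, smul_eq_mul, mul_one] at h1
  have h2 := sum_mn m (s + u)
  have h3 := Nat.choose_succ_right_eq (m + (s + u)) m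
  rw [Nat.add_sub_cancel_left] at h3
  have h4 := Nat.mul_le_mul_right ((m + 1) ^ 2) h1
  have h5 := Nat.mul_le_mul_right (m + 1) h2
  nlinarith

theorem count_level {G : Type} [AddCommGroup G] [Finite G] {m s : ℕ} (a : Fin (m + 1) → G)
    (h : ∀ g : G, ∃ y : Fin (m + 1) → ℕ, ∑ i, y i = s ∧ ∑ i, y i • a i = g) :
    Nat.card G ≤ (m + s).choose m := by
  classical
  have := Fintype.ofFinite G
  rw [← card_level, Nat.card_eq_fintype_card, ← card_univ]
  refine card_le_card_of_surjOn (fun y => ∑ i, y i • a i) fun g _ => ?_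
  obtain ⟨y, h1, h2⟩ := h g
  exact ⟨y, mem_coe.2 (mem_level.2 h1), h2⟩

/-- Closed form of the upper bound. -/
theorem upper_closed {G : Type} [AddCommGroup G] [Finite G] {m s : ℕ} (hm : 1 ≤ m)
    (a : Fin (m + 1) → G)
    (h : ∀ g : G, ∃ y : Fin (m + 1) → ℕ, ∑ i, y i = s ∧ ∑ i, y i • a i = g) :
    m ^ m * s * Nat.card G ≤ (m + 1) ^ (m - 1) * (s + m ^ 2 + m) * (m + s).choose m := by
  rcases Nat.eq_zero_or_pos s with rfl | hs
  · simp
  have hk : (m + 1) ^ m = (m + 1) ^ (m - 1) * (m + 1) := by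
    rw [← pow_succ, Nat.sub_add_cancel hm]
  set u := s / m with hu
  set n := Nat.card G
  set M := (m + s).choose m
  set N := (m + (s + u)).choose m
  have h1 : (u + 1) * n * (m + 1) ^ 2 ≤ ((m + 1) ^ 2 + (s + u)) * N := upper_level a h u
  have h2 : s ^ m * N ≤ (s + u) ^ m * M := choose_level m s u
  have h3 : m * u ≤ s := Nat.mul_div_le s m
  have h4 : s < m * (u + 1) := Nat.lt_mul_div_succ s (by omega)
  have h5 : m ^ m * (s + u) ^ m ≤ (m + 1) ^ m * s ^ m := by
    rw [← mul_pow, ← mul_pow]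
    exact Nat.pow_le_pow_left (by nlinarith) _
  have h6 : m ^ m * N ≤ (m + 1) ^ m * M := by
    refine Nat.le_of_mul_le_mul_left ?_ (pow_pos hs m)
    calc s ^ m * (m ^ m * N) = m ^ m * (s ^ m * N) := by ring
      _ ≤ m ^ m * ((s + u) ^ m * M) := Nat.mul_le_mul_left _ h2
      _ = m ^ m * (s + u) ^ m * M := by ring
      _ ≤ (m + 1) ^ m * s ^ m * M := Nat.mul_le_mul_right _ h5
      _ = _ := by ring
  have h7 : s * ((m + 1) ^ 2 + (s + u)) ≤ (u + 1) * (m + 1) * (s + m ^ 2 + m) := by
    have a1 : s * (m + 1) ^ 2 ≤ m * (u + 1) * (m + 1) ^ 2 := Nat.mul_le_mul_right _ h4.le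
    have a2 : s * (s + u) ≤ s * ((u + 1) * (m + 1)) := Nat.mul_le_mul_left _ (by nlinarith)
    nlinarith
  refine Nat.le_of_mul_le_mul_left ?_ (show 0 < (u + 1) * (m + 1) ^ 2 by positivity)
  calc (u + 1) * (m + 1) ^ 2 * (m ^ m * s * n)
      = m ^ m * s * ((u + 1) * n * (m + 1) ^ 2) := by ring
    _ ≤ m ^ m * s * (((m + 1) ^ 2 + (s + u)) * N) := Nat.mul_le_mul_left _ h1
    _ = s * ((m + 1) ^ 2 + (s + u)) * (m ^ m * N) := by ring
    _ ≤ (u + 1) * (m + 1) * (s + m ^ 2 + m) * ((m + 1) ^ m * M) := Nat.mul_le_mul h7 h6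
    _ = _ := by rw [hk]; ring

end Pool.Agent.P.MP_6b6f6e_co.Ord
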